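import Pool.Agent.W2helper94.KC.C
import Mathlib.Analysis.Convex.Continuous
import Mathlib.MeasureTheory.Measure.Hausdorff

set_option autoImplicit false

/-!
Convex functions along rays and along lines.
-/

open MeasureTheory Set Metric
open scoped ENNReal NNReal

namespace Pool.Agent.W2helper94.CV

open Pool.Agent.W2helper94.KC

/-- Change of variables by an expanding function. -/
theorem expand_map {g : ℝ → ℝ} (hg : Measurable g) {κ : ℝ} (hκ : 0 < κ)
    (h : ∀ s t, s ≤ t → κ * (t - s) ≤ g t - g s) {F : ℝ → ℝ≥0∞} (hF : Measurable F) :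
    ∫⁻ t, F (g t) ≤ ENNReal.ofReal κ⁻¹ * ∫⁻ a, F a := by
  have hanti : AntilipschitzWith (Real.toNNReal κ⁻¹) g := by
    apply AntilipschitzWith.of_le_mul_dist
    intro s t
    rw [Real.coe_toNNReal _ (by positivity), Real.dist_eq, Real.dist_eq]
    have key : ∀ s t : ℝ, s ≤ t → |s - t| ≤ κ⁻¹ * |g s - g t| := by
      intro s t hst
      have h1 := h s t hst
      rw [abs_sub_comm, abs_of_nonneg (by linarith : 0 ≤ t - s), abs_sub_comm (g s)]
      rw [inv_mul_eq_div, le_div_iff₀ hκ, mul_comm]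
      exact h1.trans (le_abs_self _)
    rcases le_total s t with hst | hst
    · exact key s t hst
    · rw [abs_sub_comm s t, abs_sub_comm (g s)]
      exact key t s hst
  have hm : (volume : Measure ℝ).map g ≤ ENNReal.ofReal κ⁻¹ • (volume : Measure ℝ) := by
    rw [Measure.le_iff]
    intro S hS
    rw [Measure.map_apply hg hS, Measure.smul_apply, smul_eq_mul]
    have h1 := hanti.hausdorffMeasure_preimage_le (d := 1) zero_le_one S
    rw [hausdorffMeasure_real, ENNReal.rpow_one] at h1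
    exact h1
  calc ∫⁻ t, F (g t) = ∫⁻ a, F a ∂((volume : Measure ℝ).map g) := (lintegral_map hF hg).symm
    _ ≤ ∫⁻ a, F a ∂(ENNReal.ofReal κ⁻¹ • (volume : Measure ℝ)) := lintegral_mono' hm le_rfl
    _ = _ := lintegral_smul_measure _ _

variable {d : ℕ}

/-- The data: a convex function with a sharp minimum. -/
structure Sharp (φ : E d → ℝ) (v₀ : E d) (κ : ℝ) : Prop where
  conv : ConvexOn ℝ univ φ
  pos : 0 < κ
  sharp : ∀ v, φ v₀ + κ * ‖v - v₀‖ ≤ φ v

theorem Sharp.cont {φ : E d → ℝ} {v₀ : E d} {κ : ℝ} (h : Sharp φ v₀ κ) : Continuous φ :=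
  h.conv.locallyLipschitz.continuous

/-- The function along a ray. -/
noncomputable def ray (φ : E d → ℝ) (v₀ : E d) (κ : ℝ) (θ : E d) (t : ℝ) : ℝ :=
  if t ≤ 0 then φ v₀ + κ * t else φ (v₀ + t • θ)

theorem measurable_ray {φ : E d → ℝ} {v₀ : E d} {κ : ℝ} (h : Sharp φ v₀ κ) (θ : E d) :
    Measurable (ray φ v₀ κ θ) := by
  unfold ray
  apply Measurable.ite measurableSet_Iic
  · exact (measurable_id.const_mul κ).const_add _
  · exact (h.cont.comp (continuous_const.add (continuous_id.smul continuous_const))).measurable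

theorem ray_expand {φ : E d → ℝ} {v₀ : E d} {κ : ℝ} (h : Sharp φ v₀ κ) {θ : E d} (hθ : ‖θ‖ = 1)
    (s t : ℝ) (hst : s ≤ t) : κ * (t - s) ≤ ray φ v₀ κ θ t - ray φ v₀ κ θ s := by
  have hκ := h.pos
  have hsh : ∀ t : ℝ, 0 ≤ t → φ v₀ + κ * t ≤ φ (v₀ + t • θ) := by
    intro t ht
    have h1 := h.sharp (v₀ + t • θ)
    rw [add_sub_cancel_left, norm_smul, hθ, mul_one, Real.norm_eq_abs, abs_of_nonneg ht] at h1
    exact h1
  unfold ray
  rcases le_or_gt t 0 with ht | ht
  · rw [if_pos ht, if_pos (hst.trans ht)]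
    exact le_of_eq (by ring)
  rw [if_neg (not_le.2 ht)]
  rcases le_or_gt s 0 with hs | hs
  · rw [if_pos hs]
    have := hsh t ht.le
    linarith
  rw [if_neg (not_le.2 hs)]
  -- both points on the ray
  have h1 := h.conv.2 (mem_univ v₀) (mem_univ (v₀ + t • θ))
    (sub_nonneg.2 ((div_le_one ht).2 hst) : 0 ≤ 1 - s / t) (by positivity : 0 ≤ s / t) (by ring)
  have e1 : (1 - s / t) • v₀ + (s / t) • (v₀ + t • θ) = v₀ + s • θ := by
    rw [smul_add, smul_smul, div_mul_cancel₀ _ ht.ne']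
    module
  rw [e1, smul_eq_mul, smul_eq_mul] at h1
  have h2 := hsh t ht.le
  have h3 : φ (v₀ + s • θ) ≤ φ (v₀ + t • θ) - (1 - s / t) * (φ (v₀ + t • θ) - φ v₀) := by
    linarith
  have h4 : κ * (t - s) ≤ (1 - s / t) * (φ (v₀ + t • θ) - φ v₀) := by
    have h5 : 1 - s / t = (t - s) / t := by field_simp
    rw [h5, div_mul_eq_mul_div, le_div_iff₀ ht]
    have h6 : 0 ≤ t - s := by linarith
    nlinarith
  linarith

/-- The set of heights at which a line is close to a cone, on one side of the vertex. -/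
theorem side_meas {φ : E d → ℝ} (hφ : ConvexOn ℝ univ φ) {w y : E d} {α R : ℝ} (hα : φ w < α)
    (hR : 0 ≤ R) :
    volume {u : ℝ | 0 < u ∧ |u * (α - φ (w + u⁻¹ • y))| ≤ R} ≤
      ENNReal.ofReal (2 * R / (α - φ w)) := by
  have hD : 0 < α - φ w := by linarith
  -- the function is increasing
  have hmono : ∀ u u' : ℝ, 0 < u → u ≤ u' → (α - φ w) * (u' - u) ≤
      u' * (α - φ (w + u'⁻¹ • y)) - u * (α - φ (w + u⁻¹ • y)) := by
    intro u u' hu huu
    have hu' : 0 < u' := by linarith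
    have h1 := hφ.2 (mem_univ w) (mem_univ (w + u⁻¹ • y))
      (sub_nonneg.2 ((div_le_one hu').2 huu) : 0 ≤ 1 - u / u') (by positivity : 0 ≤ u / u')
      (by ring)
    have e1 : (1 - u / u') • w + (u / u') • (w + u⁻¹ • y) = w + u'⁻¹ • y := by
      rw [smul_add, smul_smul]
      have : u / u' * u⁻¹ = u'⁻¹ := by field_simp
      rw [this]
      module
    rw [e1, smul_eq_mul, smul_eq_mul] at h1
    have h2 : u' * φ (w + u'⁻¹ • y) ≤ (u' - u) * φ w + u * φ (w + u⁻¹ • y) := by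
      calc u' * φ (w + u'⁻¹ • y) ≤ u' * ((1 - u / u') * φ w + u / u' * φ (w + u⁻¹ • y)) := by
            gcongr
        _ = _ := by field_simp
    nlinarith
  by_cases hne : {u : ℝ | 0 < u ∧ |u * (α - φ (w + u⁻¹ • y))| ≤ R}.Nonempty
  swap
  · rw [not_nonempty_iff_eq_empty.1 hne]; simp
  obtain ⟨u0, hu0⟩ := hne
  set S := {u : ℝ | 0 < u ∧ |u * (α - φ (w + u⁻¹ • y))| ≤ R} with hS
  have hdiam : ∀ u ∈ S, ∀ u' ∈ S, u' - u ≤ 2 * R / (α - φ w) := by
    intro u hu u' hu'
    rcases le_total u u' with h | h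
    · have h1 := hmono u u' hu.1 h
      have h2 := abs_le.1 hu.2
      have h3 := abs_le.1 hu'.2
      rw [le_div_iff₀ hD]
      nlinarith [h2.1, h2.2, h3.1, h3.2]
    · have : 0 ≤ 2 * R / (α - φ w) := by positivity
      linarith
  have hbdd : BddBelow S := ⟨0, fun u hu => hu.1.le⟩
  have hsub : S ⊆ Icc (sInf S) (sInf S + 2 * R / (α - φ w)) := by
    intro u hu
    refine ⟨csInf_le hbdd hu, ?_⟩
    have : u - 2 * R / (α - φ w) ≤ sInf S := by
      apply le_csInf ⟨u0, hu0⟩
      intro u' hu'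
      have := hdiam u' hu' u hu
      linarith
    linarith
  refine (measure_mono hsub).trans ?_
  rw [Real.volume_Icc]
  apply ENNReal.ofReal_le_ofReal
  linarith

/-- The set of heights at which a line is close to a cone. -/
theorem line_meas {φ : E d → ℝ} (hφ : ConvexOn ℝ univ φ) {w y : E d} {α R c : ℝ} (hα : φ w < α)
    (hR : 0 ≤ R) :
    volume {s : ℝ | s - c ≠ 0 ∧ |(s - c) * (α - φ (w + (s - c)⁻¹ • y))| ≤ R} ≤
      ENNReal.ofReal (4 * R / (α - φ w)) := by
  have hD : 0 < α - φ w := by linarith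
  have h1 := side_meas hφ (y := y) hα hR
  have h2 := side_meas hφ (y := -y) hα hR
  set S1 := {u : ℝ | 0 < u ∧ |u * (α - φ (w + u⁻¹ • y))| ≤ R} with hS1
  set S2 := {u : ℝ | 0 < u ∧ |u * (α - φ (w + u⁻¹ • (-y)))| ≤ R} with hS2
  have hsub : {s : ℝ | s - c ≠ 0 ∧ |(s - c) * (α - φ (w + (s - c)⁻¹ • y))| ≤ R} ⊆
      (fun s => s - c) ⁻¹' S1 ∪ (fun s => c - s) ⁻¹' S2 := by
    rintro s ⟨hs, hs2⟩
    rcases lt_or_gt_of_ne hs with h | h
    · right
      refine ⟨by show 0 < c - s; linarith, ?_⟩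
      show |(c - s) * (α - φ (w + (c - s)⁻¹ • (-y)))| ≤ R
      have e1 : (c - s)⁻¹ • (-y) = (s - c)⁻¹ • y := by
        rw [smul_neg, ← neg_smul]
        congr 1
        rw [← inv_neg, neg_sub]
      rw [e1, ← abs_neg, ← neg_mul, neg_sub]
      exact hs2
    · left
      exact ⟨h, hs2⟩
  refine (measure_mono hsub).trans ((measure_union_le _ _).trans ?_)
  have e0 : ∀ S : Set ℝ, volume ((fun s : ℝ => s - c) ⁻¹' S) = volume S := by
    intro S
    have h := measure_preimage_add_right (volume : Measure ℝ) (-c) S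
    simpa only [← sub_eq_add_neg] using h
  have e1 := e0 S1
  have e2 : volume ((fun s : ℝ => c - s) ⁻¹' S2) = volume S2 := by
    have h3 : (fun s : ℝ => c - s) ⁻¹' S2 = (fun s : ℝ => s - c) ⁻¹' (Neg.neg ⁻¹' S2) := by
      ext s
      simp only [mem_preimage, neg_sub]
    rw [h3, e0, Measure.measure_preimage_neg]
  rw [e1, e2]
  refine (add_le_add h1 h2).trans ?_
  rw [← ENNReal.ofReal_add (by positivity) (by positivity)]
  apply ENNReal.ofReal_le_ofReal
  apply le_of_eq
  ring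

end Pool.Agent.W2helper94.CV
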