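import Pool.Agent.W2helper94.CV.A

set_option autoImplicit false

/-!
Caps.
-/

open MeasureTheory Set Metric
open scoped ENNReal NNReal

namespace Pool.Agent.W2helper94.CV

open Pool.Agent.W2helper94.KC

/-- Majorant of the caps. -/
noncomputable def MM {m : ℕ} (ε : ℝ) (c θ : E (m + 1)) : ℝ≥0∞ :=
  ENNReal.ofReal ((‖c‖ + ε) ^ m) * ic (2 * ε) (‖c‖ • θ - c)

theorem MM_ge {m : ℕ} {ε ρ : ℝ} (hρ : 0 ≤ ρ) {c θ : E (m + 1)} (hθ : ‖θ‖ = 1)
    (h : ‖ρ • θ - c‖ ≤ ε) : ENNReal.ofReal (ρ ^ m) ≤ MM ε c θ := by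
  have h1 : |ρ - ‖c‖| ≤ ε := by
    have h2 := abs_norm_sub_norm_le (ρ • θ) c
    rw [norm_smul, hθ, mul_one, Real.norm_eq_abs, abs_of_nonneg hρ] at h2
    exact h2.trans h
  obtain ⟨h3, h4⟩ := abs_le.1 h1
  have h5 : ‖‖c‖ • θ - c‖ ≤ 2 * ε := by
    have e : ‖c‖ • θ - c = (ρ • θ - c) - (ρ - ‖c‖) • θ := by module
    rw [e]
    refine (norm_sub_le _ _).trans ?_
    rw [norm_smul, hθ, mul_one, Real.norm_eq_abs]
    linarith
  unfold MM
  rw [ic_of_le h5, mul_one]
  apply ENNReal.ofReal_le_ofReal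
  exact pow_le_pow_left₀ hρ (by linarith) m

theorem MM_int {m : ℕ} : ∃ C : ℝ, 0 < C ∧ ∀ (ε : ℝ) (c : E (m + 1)), 0 < ε →
    ∫⁻ θ : sphere (0 : E (m + 1)) 1, MM ε c (θ : E (m + 1)) ∂(sg (m + 1)) ≤
      ENNReal.ofReal (C * ε ^ m) := by
  obtain ⟨C, hC, hcap⟩ := cap_int (m := m)
  set A : ℝ := (sg (m + 1)).real univ with hA
  have hA0 : 0 ≤ A := measureReal_nonneg
  refine ⟨C * 4 ^ m + A * 2 ^ m, by positivity, ?_⟩
  intro ε c hε
  unfold MM
  rw [lintegral_const_mul' _ _ ENNReal.ofReal_ne_top]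
  rcases lt_or_ge ‖c‖ ε with h | h
  · calc ENNReal.ofReal ((‖c‖ + ε) ^ m) *
          ∫⁻ θ : sphere (0 : E (m + 1)) 1, ic (2 * ε) (‖c‖ • (θ : E (m + 1)) - c) ∂(sg (m + 1))
        ≤ ENNReal.ofReal ((2 * ε) ^ m) * ENNReal.ofReal A := by
          gcongr
          · linarith
          · calc ∫⁻ θ : sphere (0 : E (m + 1)) 1, ic (2 * ε) (‖c‖ • (θ : E (m + 1)) - c) ∂(sg (m + 1))
                ≤ ∫⁻ _θ : sphere (0 : E (m + 1)) 1, 1 ∂(sg (m + 1)) := by
                  apply lintegral_mono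
                  intro θ
                  exact indicator_le_self' (fun _ _ => zero_le_one) _
              _ = sg (m + 1) univ := lintegral_one
              _ ≤ _ := sg_univ_le m
      _ = ENNReal.ofReal (A * 2 ^ m * ε ^ m) := by
          rw [← ENNReal.ofReal_mul (by positivity)]
          congr 1
          rw [mul_pow]
          ring
      _ ≤ _ := by
          apply ENNReal.ofReal_le_ofReal
          have : 0 ≤ C * 4 ^ m * ε ^ m := by positivity
          linarith
  · have hc : 0 < ‖c‖ := by linarith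
    have h1 := hcap (-c) ‖c‖ (2 * ε) hc.ne' (by positivity)
    calc ENNReal.ofReal ((‖c‖ + ε) ^ m) *
          ∫⁻ θ : sphere (0 : E (m + 1)) 1, ic (2 * ε) (‖c‖ • (θ : E (m + 1)) - c) ∂(sg (m + 1))
        ≤ ENNReal.ofReal ((2 * ‖c‖) ^ m) * ENNReal.ofReal (C * (2 * ε / |‖c‖|) ^ m) := by
          gcongr
          · linarith
          · refine le_trans (le_of_eq ?_) h1
            refine lintegral_congr fun θ => ?_
            congr 1
            abel
      _ = ENNReal.ofReal (C * 4 ^ m * ε ^ m) := by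
          rw [← ENNReal.ofReal_mul (by positivity)]
          congr 1
          rw [abs_of_pos hc, div_pow, mul_pow, mul_pow]
          have : (4:ℝ) ^ m = 2 ^ m * 2 ^ m := by rw [← mul_pow]; norm_num
          rw [this]
          field_simp
      _ ≤ _ := by
          apply ENNReal.ofReal_le_ofReal
          have : 0 ≤ A * 2 ^ m * ε ^ m := by positivity
          linarith

theorem measurable_MM {m : ℕ} {α : Type} [MeasurableSpace α] (ε : ℝ) {c θ : α → E (m + 1)}
    (hc : Measurable c) (hθ : Measurable θ) : Measurable (fun a => MM ε (c a) (θ a)) := by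
  unfold MM
  exact ((hc.norm.add_const ε).pow_const m).ennreal_ofReal.mul
    ((measurable_ic _).comp ((hc.norm.smul hθ).sub hc))

/-- A convex function is Lipschitz on balls. -/
theorem lip_ball {d : ℕ} {φ : E d → ℝ} (hφ : ConvexOn ℝ univ φ) (R : ℝ) : ∃ L : ℝ, 0 < L ∧
    ∀ v w : E d, ‖v‖ < R → ‖w‖ < R → |φ v - φ w| ≤ L * ‖v - w‖ := by
  have hc : Continuous φ := hφ.locallyLipschitz.continuous
  have hb : Bornology.IsBounded (φ '' ball (0 : E d) (R + 1)) := by
    apply ((isCompact_closedBall (0 : E d) (R + 1)).image hc).isBounded.subset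
    exact image_mono ball_subset_closedBall
  obtain ⟨K, hK⟩ := (hφ.subset (subset_univ _) (convex_ball (0 : E d) (R + 1))
    ).exists_lipschitzOnWith_of_isBounded (by linarith : R < R + 1) hb
  refine ⟨K + 1, by positivity, fun v w hv hw => ?_⟩
  have h := hK.dist_le_mul v (by simpa using hv) w (by simpa using hw)
  rw [Real.dist_eq, dist_eq_norm] at h
  refine h.trans ?_
  gcongr
  linarith

end Pool.Agent.W2helper94.CV
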