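import Pool.Agent.W2helper94.CV.B
import Pool.Agent.W2helper94.KC.G
import Pool.Agent.W2helper94.KC.K

set_option autoImplicit false

/-!
The lines of larger label which are close to a given line.
-/

open MeasureTheory Set Metric
open scoped ENNReal NNReal

namespace Pool.Agent.W2helper94.CV

open Pool.Agent.W2helper94.KC

/-- Indicator of `a ≤ b`. -/
noncomputable def le1 (a b : ℝ) : ℝ≥0∞ := (Ici a).indicator (fun _ => 1) b

theorem le1_one {a b : ℝ} (h : a ≤ b) : le1 a b = 1 := indicator_of_mem (mem_Ici.2 h) _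

theorem le1_zero {a b : ℝ} (h : ¬ a ≤ b) : le1 a b = 0 := indicator_of_notMem (fun h2 => h (mem_Ici.1 h2)) _

theorem le1_le (a b : ℝ) : le1 a b ≤ 1 := indicator_le_self' (fun _ _ => zero_le_one) b

theorem le1_eq (a b : ℝ) : le1 a b = le1 0 (b - a) := by
  by_cases h : a ≤ b
  · rw [le1_one h, le1_one (by linarith)]
  · rw [le1_zero h, le1_zero (by intro h2; exact h (by linarith))]

theorem measurable_le1 {α : Type} [MeasurableSpace α] {f g : α → ℝ} (hf : Measurable f)
    (hg : Measurable g) : Measurable (fun a => le1 (f a) (g a)) := by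
  have h : (fun a => le1 (f a) (g a)) = fun a => le1 0 (g a - f a) := by
    funext a
    exact le1_eq _ _
  rw [h]
  exact (measurable_const.indicator measurableSet_Ici).comp (hg.sub hf)

variable {m : ℕ}

/-- The lines of label `α` which are close to a given line at the height `s`: the contribution of one
height and one label. -/
noncomputable def QQ (φ : E (m + 1) → ℝ) (x : ℝ → E (m + 1)) (σ : ℝ → ℝ) (L r lam : ℝ)
    (p w : E (m + 1)) (s α : ℝ) : ℝ≥0∞ :=
  le1 (φ w) α * le1 α (φ w + 2 * L) * oo lam (s - σ α) *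
    le1 |(s - σ α) * (α - φ (w + (s - σ α)⁻¹ • (p + σ α • w - x α)))| (L * r)

theorem measurable_QQ {φ : E (m + 1) → ℝ} (hφ : Measurable φ) {x : ℝ → E (m + 1)} {σ : ℝ → ℝ}
    (hx : Measurable x) (hσ : Measurable σ) (L r lam : ℝ) (p w : E (m + 1)) {α : Type}
    [MeasurableSpace α] {f g : α → ℝ} (hf : Measurable f) (hg : Measurable g) :
    Measurable (fun a => QQ φ x σ L r lam p w (f a) (g a)) := by
  unfold QQ
  have h1 : Measurable (fun a => f a - σ (g a)) := hf.sub (hσ.comp hg)
  have h2 : Measurable (fun a => p + σ (g a) • w - x (g a)) :=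
    (((hσ.comp hg).smul_const w).const_add p).sub (hx.comp hg)
  have h3 : Measurable (fun a => φ (w + (f a - σ (g a))⁻¹ • (p + σ (g a) • w - x (g a)))) :=
    hφ.comp ((h1.inv.smul h2).const_add w)
  exact (((measurable_le1 measurable_const hg).mul (measurable_le1 hg measurable_const)).mul
    (measurable_oo h1)).mul (measurable_le1 (h1.mul (hg.sub h3)).abs measurable_const)

/-- The centre of the cap. -/
noncomputable def ce (v₀ : E (m + 1)) (x : ℝ → E (m + 1)) (σ : ℝ → ℝ) (p w : E (m + 1)) (s α : ℝ) :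
    E (m + 1) := w + (s - σ α)⁻¹ • (p + σ α • w - x α) - v₀

theorem measurable_ce (v₀ : E (m + 1)) {x : ℝ → E (m + 1)} {σ : ℝ → ℝ}
    (hx : Measurable x) (hσ : Measurable σ) (p w : E (m + 1)) {α : Type}
    [MeasurableSpace α] {f g : α → ℝ} (hf : Measurable f) (hg : Measurable g) :
    Measurable (fun a => ce v₀ x σ p w (f a) (g a)) := by
  unfold ce
  have h1 : Measurable (fun a => f a - σ (g a)) := hf.sub (hσ.comp hg)
  have h2 : Measurable (fun a => p + σ (g a) • w - x (g a)) :=
    (((hσ.comp hg).smul_const w).const_add p).sub (hx.comp hg)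
  exact ((h1.inv.smul h2).const_add w).sub_const v₀

/-- The pointwise bound. -/
theorem point {φ : E (m + 1) → ℝ} {x : ℝ → E (m + 1)} {σ : ℝ → ℝ} {L r lam : ℝ}
    (hL : ∀ v w : E (m + 1), ‖v‖ < 10 → ‖w‖ < 10 → |φ v - φ w| ≤ L * ‖v - w‖) (hL0 : 0 < L)
    (hr : 0 < r) (hl : 0 < lam) (hrl : r ≤ 8 * lam) {v₀ p w θ : E (m + 1)} (hw : ‖w‖ ≤ 1)
    (hθ : ‖θ‖ = 1) {ρ : ℝ} (hρ : 0 ≤ ρ) (s : ℝ) :
    ENNReal.ofReal (ρ ^ m) * (ic 1 (v₀ + ρ • θ) * le1 (φ w) (φ (v₀ + ρ • θ)) *
      (oo lam (s - σ (φ (v₀ + ρ • θ))) *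
      ic r ((x (φ (v₀ + ρ • θ)) + (s - σ (φ (v₀ + ρ • θ))) • (v₀ + ρ • θ)) - (p + s • w)))) ≤
    QQ φ x σ L r lam p w s (φ (v₀ + ρ • θ)) *
      MM (r / lam) (ce v₀ x σ p w s (φ (v₀ + ρ • θ))) θ := by
  set v : E (m + 1) := v₀ + ρ • θ with hv
  set α : ℝ := φ v with hα
  by_cases h1 : ‖v‖ ≤ 1
  swap
  · rw [ic_of_not h1]; simp
  by_cases h2 : φ w ≤ α
  swap
  · rw [le1_zero h2]; simp
  by_cases h3 : lam ≤ |s - σ α|
  swap
  · rw [oo_zero h3]; simp
  by_cases h4 : ‖(x α + (s - σ α) • v) - (p + s • w)‖ ≤ r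
  swap
  · rw [ic_of_not h4]; simp
  set u : ℝ := s - σ α with hu
  have hu0 : 0 < |u| := by linarith
  have hune : u ≠ 0 := abs_pos.1 hu0
  set y : E (m + 1) := p + σ α • w - x α with hy
  have h5 : ‖v - (w + u⁻¹ • y)‖ ≤ r / |u| := by
    have e : v - (w + u⁻¹ • y) = u⁻¹ • ((x α + u • v) - (p + s • w)) := by
      have hs : s = u + σ α := by rw [hu]; ring
      have e1 : u⁻¹ • ((x α + u • v) - (p + s • w)) = (u⁻¹ * u) • (v - w) - u⁻¹ • y := by
        rw [hs, hy]
        module
      rw [e1, inv_mul_cancel₀ hune]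
      module
    rw [e, norm_smul, norm_inv, Real.norm_eq_abs, inv_mul_eq_div]
    gcongr
  have h6 : r / |u| ≤ r / lam := by gcongr
  have h7 : r / lam ≤ 8 := by rw [div_le_iff₀ hl]; linarith
  have h8 : ‖w + u⁻¹ • y‖ < 10 := by
    have e : w + u⁻¹ • y = v - (v - (w + u⁻¹ • y)) := by abel
    rw [e]
    refine (norm_sub_le _ _).trans_lt ?_
    linarith
  have h9 := hL v (w + u⁻¹ • y) (by linarith) h8
  rw [← hα] at h9
  have h10 : |u * (α - φ (w + u⁻¹ • y))| ≤ L * r := by
    rw [abs_mul]
    calc |u| * |α - φ (w + u⁻¹ • y)| ≤ |u| * (L * (r / |u|)) := by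
          gcongr
          exact h9.trans (by gcongr)
      _ = L * r := by field_simp
  have h11 : α ≤ φ w + 2 * L := by
    have h12 := hL v w (by linarith) (by linarith)
    rw [← hα] at h12
    have h13 : ‖v - w‖ ≤ 2 := (norm_sub_le _ _).trans (by linarith)
    have h14 := le_abs_self (α - φ w)
    nlinarith
  have hQ : QQ φ x σ L r lam p w s α = 1 := by
    unfold QQ
    rw [← hu, ← hy, le1_one h2, le1_one h11, oo_one h3, le1_one h10]
    norm_num
  rw [hQ, one_mul, ic_of_le h1, le1_one h2, oo_one h3, ic_of_le h4, mul_one, mul_one, mul_one]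
  apply MM_ge hρ hθ
  have e : ρ • θ - ce v₀ x σ p w s α = v - (w + u⁻¹ • y) := by
    unfold ce
    rw [hv, hu, hy]
    abel
  rw [e]
  exact h5.trans h6

/-- The heights for one label. -/
theorem heights {φ : E (m + 1) → ℝ} (hφ : ConvexOn ℝ univ φ) {x : ℝ → E (m + 1)} {σ : ℝ → ℝ}
    {L r lam : ℝ} (hL0 : 0 < L) (hr : 0 < r) (hl : 0 < lam) (p w : E (m + 1)) (c α : ℝ) :
    ∫⁻ s in Icc c (c + 4), QQ φ x σ L r lam p w s α ≤
      (Icc (φ w) (φ w + 2 * L)).indicator
        (fun α => ENNReal.ofReal (8 * (1 + L) * r * ((α - φ w) + r)⁻¹)) α := by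
  by_cases hα : α ∈ Icc (φ w) (φ w + 2 * L)
  swap
  · have h0 : ∀ s, QQ φ x σ L r lam p w s α = 0 := by
      intro s
      unfold QQ
      by_cases h1 : φ w ≤ α
      · have h2 : ¬ α ≤ φ w + 2 * L := fun h => hα ⟨h1, h⟩
        rw [le1_zero h2]; simp
      · rw [le1_zero h1]; simp
    simp only [h0, lintegral_zero]
    exact zero_le
  rw [indicator_of_mem hα]
  obtain ⟨hα1, hα2⟩ := hα
  set τ : ℝ := α - φ w with hτ
  have hτ0 : 0 ≤ τ := by linarith
  rcases le_or_gt τ r with h | h
  · calc ∫⁻ s in Icc c (c + 4), QQ φ x σ L r lam p w s α ≤ ∫⁻ _s in Icc c (c + 4), 1 := by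
          apply lintegral_mono
          intro s
          show QQ φ x σ L r lam p w s α ≤ 1
          unfold QQ
          calc _ ≤ (1 : ℝ≥0∞) * 1 * 1 * 1 := by
                gcongr
                · exact le1_le _ _
                · exact le1_le _ _
                · exact chi_le _ _ _
                · exact le1_le _ _
            _ = 1 := by norm_num
      _ = ENNReal.ofReal 4 := by
          rw [lintegral_one, Measure.restrict_apply_univ, Real.volume_Icc]
          congr 1
          ring
      _ ≤ _ := by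
          apply ENNReal.ofReal_le_ofReal
          rw [← div_eq_mul_inv, le_div_iff₀ (by positivity)]
          nlinarith [mul_pos hL0 hr]
  · have hφα : φ w < α := by linarith
    have h1 := line_meas hφ (w := w) (y := p + σ α • w - x α) (α := α) (R := L * r) (c := σ α) hφα
      (by positivity)
    set S := {s : ℝ | s - σ α ≠ 0 ∧
      |(s - σ α) * (α - φ (w + (s - σ α)⁻¹ • (p + σ α • w - x α)))| ≤ L * r} with hS
    calc ∫⁻ s in Icc c (c + 4), QQ φ x σ L r lam p w s α ≤ ∫⁻ s, QQ φ x σ L r lam p w s α :=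
          setLIntegral_le_lintegral _ _
      _ ≤ ∫⁻ s, (toMeasurable volume S).indicator (fun _ => 1) s := by
          apply lintegral_mono
          intro s
          show QQ φ x σ L r lam p w s α ≤ (toMeasurable volume S).indicator (fun _ => 1) s
          by_cases hs : s ∈ S
          · rw [indicator_of_mem (subset_toMeasurable _ _ hs)]
            unfold QQ
            calc _ ≤ (1 : ℝ≥0∞) * 1 * 1 * 1 := by
                  gcongr
                  · exact le1_le _ _
                  · exact le1_le _ _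
                  · exact chi_le _ _ _
                  · exact le1_le _ _
              _ = 1 := by norm_num
          · have h0 : QQ φ x σ L r lam p w s α = 0 := by
              unfold QQ
              by_cases h2 : lam ≤ |s - σ α|
              · have h3 : s - σ α ≠ 0 := abs_pos.1 (by linarith)
                have h4 : ¬ |(s - σ α) * (α - φ (w + (s - σ α)⁻¹ • (p + σ α • w - x α)))| ≤ L * r :=
                  fun h5 => hs ⟨h3, h5⟩
                rw [le1_zero h4]; simp
              · rw [oo_zero h2]; simp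
            rw [h0]
            exact zero_le
      _ = volume S := by
          rw [lintegral_indicator_const (measurableSet_toMeasurable _ _), one_mul,
            measure_toMeasurable]
      _ ≤ _ := by
          refine h1.trans (ENNReal.ofReal_le_ofReal ?_)
          rw [← hτ, ← div_eq_mul_inv, div_le_div_iff₀ (by linarith) (by linarith)]
          have h2 : 0 < L * r := by positivity
          nlinarith [mul_pos hr (by linarith : 0 < τ), mul_pos h2 (by linarith : 0 < τ),
            mul_pos h2 (by linarith : 0 < τ - r)]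

end Pool.Agent.W2helper94.CV
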