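import Pool.Agent.W2helper94.CV.C

set_option autoImplicit false

/-!
The row bound.
-/

open MeasureTheory Set Metric
open scoped ENNReal NNReal

namespace Pool.Agent.W2helper94.CV

open Pool.Agent.W2helper94.KC

variable {m : ℕ}

theorem label_int {L r : ℝ} (hL0 : 0 < L) (hr : 0 < r) (a : ℝ) :
    ∫⁻ α, (Icc a (a + 2 * L)).indicator
        (fun α => ENNReal.ofReal (8 * (1 + L) * r * ((α - a) + r)⁻¹)) α ≤
      ENNReal.ofReal (8 * (1 + L) * (1 + Real.log (1 + 2 * L)) * r * ell r) := by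
  have h0 : ∀ α, (Icc a (a + 2 * L)).indicator
        (fun α => ENNReal.ofReal (8 * (1 + L) * r * ((α - a) + r)⁻¹)) α =
      (Icc 0 (2 * L)).indicator
        (fun τ => ENNReal.ofReal (8 * (1 + L) * r) * ENNReal.ofReal ((1 * τ + r)⁻¹)) (α - a) := by
    intro α
    by_cases h : α ∈ Icc a (a + 2 * L)
    · rw [indicator_of_mem h, indicator_of_mem (show α - a ∈ Icc 0 (2 * L) from
        ⟨by linarith [h.1], by linarith [h.2]⟩), ← ENNReal.ofReal_mul (by positivity), one_mul]
    · rw [indicator_of_notMem h, indicator_of_notMem]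
      intro h2
      exact h ⟨by linarith [h2.1], by linarith [h2.2]⟩
  simp only [h0]
  rw [lintegral_sub_right_eq_self (μ := (volume : Measure ℝ)) (fun τ => (Icc 0 (2 * L)).indicator
        (fun τ => ENNReal.ofReal (8 * (1 + L) * r) * ENNReal.ofReal ((1 * τ + r)⁻¹)) τ) a,
    lintegral_indicator measurableSet_Icc, lintegral_const_mul' _ _ ENNReal.ofReal_ne_top,
    lint_half one_pos hr (by positivity), ← ENNReal.ofReal_mul (by positivity)]
  apply ENNReal.ofReal_le_ofReal
  have h1 : Real.log (1 + 1 * (2 * L) / r) ≤ (1 + Real.log (1 + 2 * L)) * ell r := by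
    have h2 : 1 + 1 * (2 * L) / r ≤ (1 + 2 * L) * (1 + 1 / r) := by
      have e : (1 + 2 * L) * (1 + 1 / r) = 1 + 1 * (2 * L) / r + 2 * L + 1 / r := by
        field_simp
        ring
      rw [e]
      have : 0 < 1 / r := by positivity
      linarith
    have h3 : 0 < 1 / r := by positivity
    have h4 := Real.log_le_log (by positivity) h2
    rw [Real.log_mul (by positivity) (by positivity)] at h4
    have h5 : 0 ≤ Real.log (1 + 2 * L) := Real.log_nonneg (by linarith)
    have h6 : 0 ≤ Real.log (1 + 1 / r) := Real.log_nonneg (by linarith)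
    unfold ell
    nlinarith [mul_nonneg h5 h6]
  have h7 := one_le_ell hr
  have h8 : 0 ≤ Real.log (1 + 2 * L) := Real.log_nonneg (by linarith)
  calc 8 * (1 + L) * r * (1⁻¹ * Real.log (1 + 1 * (2 * L) / r))
      ≤ 8 * (1 + L) * r * (1⁻¹ * ((1 + Real.log (1 + 2 * L)) * ell r)) := by gcongr
    _ = _ := by ring

/-- **The row bound**: the lines of larger label which are close to a given line. -/
theorem row {φ : E (m + 1) → ℝ} {v₀ : E (m + 1)} {κ : ℝ} (h : Sharp φ v₀ κ) :
    ∃ C : ℝ, 0 < C ∧ ∀ (x : ℝ → E (m + 1)) (σ : ℝ → ℝ), Measurable x → Measurable σ →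
      ∀ (r lam c : ℝ) (p w : E (m + 1)), 0 < r → 0 < lam → r ≤ 8 * lam → ‖w‖ ≤ 1 →
      ∫⁻ v : E (m + 1), ic 1 v * le1 (φ w) (φ v) * ∫⁻ s in Icc c (c + 4),
        oo lam (s - σ (φ v)) * ic r ((x (φ v) + (s - σ (φ v)) • v) - (p + s • w)) ≤
        ENNReal.ofReal (C * r ^ (m + 1) * lam⁻¹ ^ m * ell r) := by
  obtain ⟨L, hL0, hL⟩ := lip_ball h.conv 10
  obtain ⟨C1, hC1, hcap⟩ := MM_int (m := m)
  have hκ := h.pos
  have hlog : 0 ≤ Real.log (1 + 2 * L) := Real.log_nonneg (by linarith)
  refine ⟨κ⁻¹ * (C1 * (8 * (1 + L) * (1 + Real.log (1 + 2 * L)))), by positivity, ?_⟩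
  intro x σ hx hσ r lam c p w hr hl hrl hw
  have hφm : Measurable φ := h.cont.measurable
  set I : Set ℝ := Icc c (c + 4) with hI
  set f : E (m + 1) → ℝ≥0∞ := fun v => ic 1 v * le1 (φ w) (φ v) * ∫⁻ s in I,
        oo lam (s - σ (φ v)) * ic r ((x (φ v) + (s - σ (φ v)) • v) - (p + s • w)) with hf
  have hinm : Measurable (fun q : E (m + 1) × ℝ => oo lam (q.2 - σ (φ q.1)) *
      ic r ((x (φ q.1) + (q.2 - σ (φ q.1)) • q.1) - (p + q.2 • w))) := by
    have h1 : Measurable (fun q : E (m + 1) × ℝ => φ q.1) := hφm.comp measurable_fst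
    have h2 : Measurable (fun q : E (m + 1) × ℝ => q.2 - σ (φ q.1)) :=
      measurable_snd.sub (hσ.comp h1)
    exact (measurable_oo h2).mul ((measurable_ic r).comp
      (((hx.comp h1).add (h2.smul measurable_fst)).sub ((measurable_snd.smul_const w).const_add p)))
  have hfm : Measurable f :=
    ((measurable_ic 1).mul (measurable_le1 measurable_const hφm)).mul hinm.lintegral_prod_right'
  set S := sphere (0 : E (m + 1)) 1
  set g : (S × ℝ) × ℝ → ℝ≥0∞ := fun q => QQ φ x σ L r lam p w q.2 q.1.2 *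
    MM (r / lam) (ce v₀ x σ p w q.2 q.1.2) (q.1.1 : E (m + 1)) with hg
  have hgm : Measurable g := by
    have h1 : Measurable (fun q : (S × ℝ) × ℝ => q.1.2) := measurable_snd.comp measurable_fst
    have h2 : Measurable (fun q : (S × ℝ) × ℝ => (q.1.1 : E (m + 1))) :=
      measurable_subtype_coe.comp (measurable_fst.comp measurable_fst)
    exact (measurable_QQ hφm hx hσ L r lam p w measurable_snd h1).mul
      (measurable_MM _ (measurable_ce v₀ hx hσ p w measurable_snd h1) h2)
  set FF : S → ℝ → ℝ≥0∞ := fun θ α => ∫⁻ s in I, g ((θ, α), s) with hFF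
  have hFm : Measurable (fun q : S × ℝ => FF q.1 q.2) := hgm.lintegral_prod_right'
  have hstep : ∀ θ : S, ∫⁻ ρ in Ioi (0:ℝ), ENNReal.ofReal (ρ ^ m) * f (v₀ + ρ • (θ : E (m + 1))) ≤
      ENNReal.ofReal κ⁻¹ * ∫⁻ α, FF θ α := by
    intro θ
    have hθ : ‖(θ : E (m + 1))‖ = 1 := by simp
    have hFθ : Measurable (FF θ) := hFm.comp measurable_prodMk_left
    calc ∫⁻ ρ in Ioi (0:ℝ), ENNReal.ofReal (ρ ^ m) * f (v₀ + ρ • (θ : E (m + 1)))
        ≤ ∫⁻ ρ in Ioi (0:ℝ), FF θ (ray φ v₀ κ θ ρ) := by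
          refine setLIntegral_mono' measurableSet_Ioi fun ρ hρ => ?_
          have hρ0 : (0:ℝ) < ρ := hρ
          have e1 : ray φ v₀ κ θ ρ = φ (v₀ + ρ • (θ : E (m + 1))) := by
            unfold ray
            rw [if_neg (not_le.2 hρ0)]
          rw [e1]
          simp only [hf, hFF, hg]
          have hfin : ic 1 (v₀ + ρ • (θ : E (m + 1))) * le1 (φ w) (φ (v₀ + ρ • (θ : E (m + 1)))) ≠ ∞ := by
            apply ENNReal.mul_ne_top
            · exact ne_top_of_le_ne_top ENNReal.one_ne_top (indicator_le_self' (fun _ _ => zero_le_one) _)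
            · exact ne_top_of_le_ne_top ENNReal.one_ne_top (le1_le _ _)
          rw [← lintegral_const_mul' _ _ hfin, ← lintegral_const_mul' _ _ ENNReal.ofReal_ne_top]
          apply lintegral_mono
          intro s
          exact point hL hL0 hr hl hrl hw hθ hρ0.le s
      _ ≤ ∫⁻ ρ, FF θ (ray φ v₀ κ θ ρ) := setLIntegral_le_lintegral _ _
      _ ≤ ENNReal.ofReal κ⁻¹ * ∫⁻ α, FF θ α :=
          expand_map (measurable_ray h _) hκ (ray_expand h hθ) hFθ
  calc ∫⁻ v, f v = ∫⁻ z, f (v₀ + z) := (lintegral_add_left_eq_self f v₀).symm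
    _ = ∫⁻ θ : S, (∫⁻ ρ in Ioi (0:ℝ), ENNReal.ofReal (ρ ^ m) * f (v₀ + ρ • (θ : E (m + 1)))) ∂(sg (m + 1)) :=
        polar m (fun z => f (v₀ + z)) (hfm.comp (measurable_const_add v₀))
    _ ≤ ∫⁻ θ : S, (ENNReal.ofReal κ⁻¹ * ∫⁻ α, FF θ α) ∂(sg (m + 1)) := lintegral_mono hstep
    _ = ENNReal.ofReal κ⁻¹ * ∫⁻ θ : S, (∫⁻ α, FF θ α) ∂(sg (m + 1)) :=
        lintegral_const_mul' _ _ ENNReal.ofReal_ne_top
    _ = ENNReal.ofReal κ⁻¹ * ∫⁻ α, (∫⁻ θ : S, FF θ α ∂(sg (m + 1))) := by
        congr 1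
        exact lintegral_lintegral_swap hFm.aemeasurable
    _ = ENNReal.ofReal κ⁻¹ * ∫⁻ α, ∫⁻ s in I, (∫⁻ θ : S, g ((θ, α), s) ∂(sg (m + 1))) := by
        congr 1
        refine lintegral_congr fun α => ?_
        simp only [hFF]
        apply lintegral_lintegral_swap
        have h1 : Measurable (fun q : S × ℝ => g ((q.1, α), q.2)) :=
          hgm.comp ((measurable_fst.prodMk measurable_const).prodMk measurable_snd)
        exact h1.aemeasurable
    _ ≤ ENNReal.ofReal κ⁻¹ * ∫⁻ α, ∫⁻ s in I, QQ φ x σ L r lam p w s α *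
          ENNReal.ofReal (C1 * (r / lam) ^ m) := by
        gcongr with α s
        simp only [hg]
        have hfin : QQ φ x σ L r lam p w s α ≠ ∞ := by
          unfold QQ
          refine ne_top_of_le_ne_top ENNReal.one_ne_top ?_
          calc _ ≤ (1 : ℝ≥0∞) * 1 * 1 * 1 := by
                gcongr
                · exact le1_le _ _
                · exact le1_le _ _
                · exact chi_le _ _ _
                · exact le1_le _ _
            _ = 1 := by norm_num
        rw [lintegral_const_mul' _ _ hfin]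
        gcongr
        exact hcap _ _ (by positivity)
    _ = ENNReal.ofReal κ⁻¹ * (ENNReal.ofReal (C1 * (r / lam) ^ m) *
          ∫⁻ α, ∫⁻ s in I, QQ φ x σ L r lam p w s α) := by
        congr 1
        rw [← lintegral_const_mul' _ _ ENNReal.ofReal_ne_top]
        refine lintegral_congr fun α => ?_
        rw [← lintegral_const_mul' _ _ ENNReal.ofReal_ne_top]
        refine lintegral_congr fun s => ?_
        rw [mul_comm]
    _ ≤ ENNReal.ofReal κ⁻¹ * (ENNReal.ofReal (C1 * (r / lam) ^ m) *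
          ENNReal.ofReal (8 * (1 + L) * (1 + Real.log (1 + 2 * L)) * r * ell r)) := by
        gcongr
        refine le_trans (lintegral_mono fun α => ?_) (label_int hL0 hr (φ w))
        exact heights h.conv hL0 hr hl p w c α
    _ = _ := by
        rw [← ENNReal.ofReal_mul (by positivity), ← ENNReal.ofReal_mul (by positivity)]
        congr 1
        rw [div_pow, inv_pow, pow_succ]
        field_simp

end Pool.Agent.W2helper94.CV
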