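import Pool.Agent.W2helper94.CV.D
import Pool.Agent.W2helper94.KC.W

set_option autoImplicit false

/-!
The estimate for sets of directions.
-/

open MeasureTheory Set Metric
open scoped ENNReal NNReal

namespace Pool.Agent.W2helper94.CV

open Pool.Agent.W2helper94.KC
open Pool.Agent.H803R2.Kak

variable {d : ℕ}

/-- The row bound for a family of lines. -/
def RowBd (D : Set (E d)) (φ : E d → ℝ) (b : E d → E d) (τ : E d → ℝ) (C : ℝ) : Prop :=
  ∀ r lam c : ℝ, 0 < r → 0 < lam → r ≤ 8 * lam → ∀ w ∈ D,
    ∫⁻ v in D, le1 (φ w) (φ v) * ∫⁻ s in Icc c (c + 4),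
      oo lam (s - τ v) * ic r ((b v + s • v) - (b w + s • w)) ≤
      ENNReal.ofReal (C * r ^ d * lam⁻¹ ^ (d - 1) * ell r)

theorem moll_eq {r : ℝ} {F : E d × ℝ → ℝ≥0∞} (x : E d) (t : ℝ) :
    moll r F (x, t) = (volume (closedBall (0 : E d) r))⁻¹ * ∫⁻ y, ic r (y - x) * F (y, t) := by
  unfold moll
  congr 1
  rw [← lintegral_indicator measurableSet_closedBall,
    ← lintegral_add_left_eq_self (fun y => ic r (y - x) * F (y, t)) x]
  refine lintegral_congr fun y => ?_
  rw [add_sub_cancel_left]
  by_cases h : ‖y‖ ≤ r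
  · rw [ic_of_le h, one_mul, indicator_of_mem (by simpa using h)]
  · rw [ic_of_not h, zero_mul, indicator_of_notMem (by simpa using h)]

/-- The multiplicity function of a set of directions. -/
noncomputable def NG (b : E d → E d) (τ : E d → ℝ) (lam r : ℝ) (G : Set (E d)) (t : ℝ) (y : E d) :
    ℝ≥0∞ := ∫⁻ v in G, oo lam (t - τ v) * ic r (y - (b v + t • v))

/-- The core measurability. -/
theorem meas3 {b : E d → E d} {τ : E d → ℝ} (hb : Measurable b) (hτ : Measurable τ) (lam r : ℝ) :
    Measurable (fun q : (ℝ × E d) × E d =>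
      oo lam (q.1.1 - τ q.2) * ic r (q.1.2 - (b q.2 + q.1.1 • q.2))) := by
  have h1 : Measurable (fun q : (ℝ × E d) × E d => q.1.1) := measurable_fst.comp measurable_fst
  have h2 : Measurable (fun q : (ℝ × E d) × E d => q.1.2) := measurable_snd.comp measurable_fst
  exact (measurable_oo (h1.sub (hτ.comp measurable_snd))).mul ((measurable_ic r).comp
    (h2.sub ((hb.comp measurable_snd).add (h1.smul measurable_snd))))

theorem measurable_NG {b : E d → E d} {τ : E d → ℝ} (hb : Measurable b) (hτ : Measurable τ)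
    (lam r : ℝ) (G : Set (E d)) : Measurable (fun q : ℝ × E d => NG b τ lam r G q.1 q.2) :=
  (meas3 hb hτ lam r).lintegral_prod_right'

/-- Duality. -/
theorem dual {b : E d → E d} {τ : E d → ℝ} (hb : Measurable b) (hτ : Measurable τ) (lam : ℝ)
    {r : ℝ} (hr : 0 < r) (G : Set (E d)) (I : Set ℝ) {F : E d × ℝ → ℝ≥0∞} (hF : Measurable F) :
    ∫⁻ v in G, ∫⁻ t in I, oo lam (t - τ v) * moll r F (b v + t • v, t) =
      (volume (closedBall (0 : E d) r))⁻¹ * ∫⁻ t in I, ∫⁻ y, F (y, t) * NG b τ lam r G t y := by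
  have hV : (volume (closedBall (0:E d) r))⁻¹ ≠ ∞ := ENNReal.inv_ne_top.2 (vol_pos hr).ne'
  have hm := meas3 hb hτ lam r
  have hm2 : Measurable (fun q : (ℝ × E d) × E d => F (q.1.2, q.1.1) *
      (oo lam (q.1.1 - τ q.2) * ic r (q.1.2 - (b q.2 + q.1.1 • q.2)))) :=
    (hF.comp ((measurable_snd.comp measurable_fst).prodMk
      (measurable_fst.comp measurable_fst))).mul hm
  have e1 : ∀ v t, oo lam (t - τ v) * moll r F (b v + t • v, t) =
      (volume (closedBall (0 : E d) r))⁻¹ * ∫⁻ y, F (y, t) *
        (oo lam (t - τ v) * ic r (y - (b v + t • v))) := by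
    intro v t
    have hoo : oo lam (t - τ v) ≠ ∞ := ne_top_of_le_ne_top ENNReal.one_ne_top (chi_le _ _ _)
    rw [moll_eq, mul_left_comm, ← lintegral_const_mul' _ _ hoo]
    congr 1
    refine lintegral_congr fun y => ?_
    ring
  simp only [e1]
  simp only [lintegral_const_mul' _ _ hV]
  congr 1
  rw [lintegral_lintegral_swap]
  · refine lintegral_congr fun t => ?_
    rw [lintegral_lintegral_swap]
    · refine lintegral_congr fun y => ?_
      unfold NG
      have h1 : Measurable (fun v => oo lam (t - τ v) * ic r (y - (b v + t • v))) :=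
        hm.comp (measurable_const.prodMk measurable_id : Measurable (fun v : E d => ((t, y), v)))
      rw [lintegral_const_mul _ h1]
    · have h1 : Measurable (fun q : E d × E d => (((t, q.2), q.1) : (ℝ × E d) × E d)) :=
        (measurable_const.prodMk measurable_snd).prodMk measurable_fst
      have h2 := hm2.comp h1
      exact h2.aemeasurable
  · have h1 : Measurable (fun q : (E d × ℝ) × E d => (((q.1.2, q.2), q.1.1) : (ℝ × E d) × E d)) :=
      ((measurable_snd.comp measurable_fst).prodMk measurable_snd).prodMk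
        (measurable_fst.comp measurable_fst)
    have h2 := (hm2.comp h1).lintegral_prod_right' (ν := (volume : Measure (E d)))
    exact h2.aemeasurable

/-- The length of the set of heights at which two lines are close. -/
noncomputable def KK (b : E d → E d) (τ : E d → ℝ) (lam r : ℝ) (I : Set ℝ) (v w : E d) : ℝ≥0∞ :=
  ∫⁻ t in I, oo lam (t - τ v) * oo lam (t - τ w) * ic (2 * r) ((b v + t • v) - (b w + t • w))

theorem measK {b : E d → E d} {τ : E d → ℝ} (hb : Measurable b) (hτ : Measurable τ) (lam r : ℝ) :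
    Measurable (fun q : (E d × E d) × ℝ => oo lam (q.2 - τ q.1.1) * oo lam (q.2 - τ q.1.2) *
      ic (2 * r) ((b q.1.1 + q.2 • q.1.1) - (b q.1.2 + q.2 • q.1.2))) := by
  have h1 : Measurable (fun q : (E d × E d) × ℝ => q.1.1) := measurable_fst.comp measurable_fst
  have h2 : Measurable (fun q : (E d × E d) × ℝ => q.1.2) := measurable_snd.comp measurable_fst
  exact ((measurable_oo (measurable_snd.sub (hτ.comp h1))).mul
    (measurable_oo (measurable_snd.sub (hτ.comp h2)))).mul ((measurable_ic _).comp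
    (((hb.comp h1).add (measurable_snd.smul h1)).sub ((hb.comp h2).add (measurable_snd.smul h2))))

theorem measurable_KK {b : E d → E d} {τ : E d → ℝ} (hb : Measurable b) (hτ : Measurable τ)
    (lam r : ℝ) (I : Set ℝ) : Measurable (fun q : E d × E d => KK b τ lam r I q.1 q.2) :=
  (measK hb hτ lam r).lintegral_prod_right'

theorem KK_symm (b : E d → E d) (τ : E d → ℝ) (lam r : ℝ) (I : Set ℝ) (v w : E d) :
    KK b τ lam r I v w = KK b τ lam r I w v := by
  unfold KK
  refine lintegral_congr fun t => ?_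
  rw [mul_comm (oo lam (t - τ v))]
  congr 1
  rw [← ic_neg]
  congr 1
  abel

theorem ball_pair {r : ℝ} (z z' : E d) : ∫⁻ y : E d, ic r (y - z) * ic r (y - z') ≤
    volume (closedBall (0 : E d) r) * ic (2 * r) (z - z') := by
  by_cases h : ‖z - z'‖ ≤ 2 * r
  · rw [ic_of_le h, mul_one, ← lint_ic r z]
    apply lintegral_mono
    intro y
    calc ic r (y - z) * ic r (y - z') ≤ ic r (y - z) * 1 := by
          gcongr
          exact indicator_le_self' (fun _ _ => zero_le_one) _
      _ = _ := mul_one _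
  · rw [ic_of_not h, mul_zero, nonpos_iff_eq_zero]
    have h0 : ∀ y : E d, ic r (y - z) * ic r (y - z') = 0 := by
      intro y
      by_cases h1 : ‖y - z‖ ≤ r
      · by_cases h2 : ‖y - z'‖ ≤ r
        · exfalso
          apply h
          have e : z - z' = (y - z') - (y - z) := by abel
          rw [e]
          exact (norm_sub_le _ _).trans (by linarith)
        · rw [ic_of_not h2, mul_zero]
      · rw [ic_of_not h1, zero_mul]
    simp only [h0, lintegral_zero]

/-- The energy. -/
theorem energyG {b : E d → E d} {τ : E d → ℝ} (hb : Measurable b) (hτ : Measurable τ)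
    (lam r : ℝ) (G : Set (E d)) (I : Set ℝ) :
    ∫⁻ t in I, ∫⁻ y, NG b τ lam r G t y ^ 2 ≤
      volume (closedBall (0 : E d) r) * ∫⁻ v in G, ∫⁻ w in G, KK b τ lam r I v w := by
  have hm := meas3 hb hτ lam r
  set f : ℝ → E d → E d → ℝ≥0∞ := fun t y v => oo lam (t - τ v) * ic r (y - (b v + t • v)) with hf
  have hK := measK hb hτ lam r
  have hone : ∀ t, ∫⁻ y, NG b τ lam r G t y ^ 2 ≤ volume (closedBall (0 : E d) r) *
      ∫⁻ v in G, ∫⁻ w in G, oo lam (t - τ v) * oo lam (t - τ w) *
        ic (2 * r) ((b v + t • v) - (b w + t • w)) := by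
    intro t
    have hft : Measurable (fun q : E d × E d => f t q.1 q.2) :=
      hm.comp ((measurable_const.prodMk measurable_fst).prodMk measurable_snd)
    have e1 : ∀ y, NG b τ lam r G t y ^ 2 = ∫⁻ v in G, ∫⁻ w in G, f t y v * f t y w := by
      intro y
      have h1 : Measurable (fun v => f t y v) := hft.comp measurable_prodMk_left
      have e2 : NG b τ lam r G t y = ∫⁻ v in G, f t y v := rfl
      rw [e2, sq, ← lintegral_mul_const _ h1]
      refine lintegral_congr fun v => ?_
      rw [lintegral_const_mul _ h1]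
    simp only [e1]
    have h3 : Measurable (fun q : (E d × E d) × E d => f t q.1.1 q.1.2 * f t q.1.1 q.2) :=
      (hft.comp measurable_fst).mul (hft.comp ((measurable_fst.comp measurable_fst).prodMk
        measurable_snd))
    rw [lintegral_lintegral_swap (h3.lintegral_prod_right'
      (ν := (volume : Measure (E d)).restrict G)).aemeasurable]
    have hVm : Measurable (fun q : E d × E d => oo lam (t - τ q.1) * oo lam (t - τ q.2) *
        ic (2 * r) ((b q.1 + t • q.1) - (b q.2 + t • q.2))) :=
      hK.comp (measurable_id.prodMk measurable_const)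
    rw [← lintegral_const_mul _ hVm.lintegral_prod_right']
    apply lintegral_mono
    intro v
    show ∫⁻ y, ∫⁻ w in G, f t y v * f t y w ≤ _
    have h4 : Measurable (fun q : E d × E d => f t q.1 v * f t q.1 q.2) :=
      (hft.comp (measurable_fst.prodMk measurable_const)).mul hft
    rw [lintegral_lintegral_swap h4.aemeasurable]
    show _ ≤ volume (closedBall (0 : E d) r) * ∫⁻ w in G, oo lam (t - τ v) * oo lam (t - τ w) *
        ic (2 * r) ((b v + t • v) - (b w + t • w))
    have hV1 : Measurable (fun w => oo lam (t - τ v) * oo lam (t - τ w) *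
        ic (2 * r) ((b v + t • v) - (b w + t • w))) := by
      have h := hVm.comp (measurable_prodMk_left (x := v))
      simp only [Function.comp_def] at h
      exact h
    rw [← lintegral_const_mul _ hV1]
    apply lintegral_mono
    intro w
    show ∫⁻ y, f t y v * f t y w ≤ volume (closedBall (0 : E d) r) *
      (oo lam (t - τ v) * oo lam (t - τ w) * ic (2 * r) ((b v + t • v) - (b w + t • w)))
    have hoo : oo lam (t - τ v) * oo lam (t - τ w) ≠ ∞ :=
      ENNReal.mul_ne_top (ne_top_of_le_ne_top ENNReal.one_ne_top (chi_le _ _ _))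
        (ne_top_of_le_ne_top ENNReal.one_ne_top (chi_le _ _ _))
    calc ∫⁻ y, f t y v * f t y w = ∫⁻ y, oo lam (t - τ v) * oo lam (t - τ w) *
          (ic r (y - (b v + t • v)) * ic r (y - (b w + t • w))) := by
          refine lintegral_congr fun y => ?_
          simp only [hf]
          ring
      _ = oo lam (t - τ v) * oo lam (t - τ w) *
          ∫⁻ y, ic r (y - (b v + t • v)) * ic r (y - (b w + t • w)) :=
          lintegral_const_mul' _ _ hoo
      _ ≤ oo lam (t - τ v) * oo lam (t - τ w) * (volume (closedBall (0 : E d) r) *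
          ic (2 * r) ((b v + t • v) - (b w + t • w))) := by
          gcongr
          exact ball_pair _ _
      _ = _ := by ring
  calc ∫⁻ t in I, ∫⁻ y, NG b τ lam r G t y ^ 2
      ≤ ∫⁻ t in I, volume (closedBall (0 : E d) r) *
      ∫⁻ v in G, ∫⁻ w in G, oo lam (t - τ v) * oo lam (t - τ w) *
        ic (2 * r) ((b v + t • v) - (b w + t • w)) := lintegral_mono hone
    _ = volume (closedBall (0 : E d) r) * ∫⁻ t in I, ∫⁻ v in G, ∫⁻ w in G,
        oo lam (t - τ v) * oo lam (t - τ w) *
        ic (2 * r) ((b v + t • v) - (b w + t • w)) :=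
        lintegral_const_mul' _ _ (vol_lt_top).ne
    _ = _ := by
        congr 1
        have h1 : Measurable (fun q : (ℝ × E d) × E d => oo lam (q.1.1 - τ q.1.2) *
            oo lam (q.1.1 - τ q.2) *
            ic (2 * r) ((b q.1.2 + q.1.1 • q.1.2) - (b q.2 + q.1.1 • q.2))) :=
          hK.comp (((measurable_snd.comp measurable_fst).prodMk measurable_snd).prodMk
            (measurable_fst.comp measurable_fst))
        rw [lintegral_lintegral_swap (h1.lintegral_prod_right'
          (ν := (volume : Measure (E d)).restrict G)).aemeasurable]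
        refine lintegral_congr fun v => ?_
        have h2 : Measurable (fun q : ℝ × E d => oo lam (q.1 - τ v) *
            oo lam (q.1 - τ q.2) *
            ic (2 * r) ((b v + q.1 • v) - (b q.2 + q.1 • q.2))) :=
          hK.comp ((measurable_const.prodMk measurable_snd).prodMk measurable_fst)
        rw [lintegral_lintegral_swap h2.aemeasurable]
        rfl

/-- The sum over the pairs of directions in `G`. -/
theorem pairsG {D : Set (E d)} {φ : E d → ℝ} {b : E d → E d} {τ : E d → ℝ} {C : ℝ}
    (hrow : RowBd D φ b τ C) (hφ : Measurable φ) (hb : Measurable b) (hτ : Measurable τ)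
    {r lam : ℝ} (hr : 0 < r) (hl : 0 < lam) (hrl : 2 * r ≤ 8 * lam) {G : Set (E d)}
    (hG : MeasurableSet G) (hGD : G ⊆ D) (c : ℝ) :
    ∫⁻ v in G, ∫⁻ w in G, KK b τ lam r (Icc c (c + 4)) v w ≤
      2 * (ENNReal.ofReal (C * (2 * r) ^ d * lam⁻¹ ^ (d - 1) * ell (2 * r)) * volume G) := by
  set I := Icc c (c + 4) with hI
  have hKm := measurable_KK hb hτ lam r I
  have hLm : Measurable (fun q : E d × E d => le1 (φ q.1) (φ q.2) * KK b τ lam r I q.1 q.2) :=
    (measurable_le1 (hφ.comp measurable_fst) (hφ.comp measurable_snd)).mul hKm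
  have hLm' : Measurable (fun q : E d × E d => le1 (φ q.2) (φ q.1) * KK b τ lam r I q.1 q.2) :=
    (measurable_le1 (hφ.comp measurable_snd) (hφ.comp measurable_fst)).mul hKm
  have h1 : ∫⁻ v in G, ∫⁻ w in G, KK b τ lam r I v w ≤
      (∫⁻ v in G, ∫⁻ w in G, le1 (φ v) (φ w) * KK b τ lam r I v w) +
      ∫⁻ v in G, ∫⁻ w in G, le1 (φ w) (φ v) * KK b τ lam r I v w := by
    rw [← lintegral_add_left hLm.lintegral_prod_right']
    apply lintegral_mono
    intro v
    show ∫⁻ w in G, KK b τ lam r I v w ≤ (∫⁻ w in G, le1 (φ v) (φ w) * KK b τ lam r I v w) +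
      ∫⁻ w in G, le1 (φ w) (φ v) * KK b τ lam r I v w
    have hL1 : Measurable (fun w => le1 (φ v) (φ w) * KK b τ lam r I v w) := by
      have h := hLm.comp (measurable_prodMk_left (x := v))
      simp only [Function.comp_def] at h
      exact h
    rw [← lintegral_add_left hL1]
    apply lintegral_mono
    intro w
    show KK b τ lam r I v w ≤ le1 (φ v) (φ w) * KK b τ lam r I v w +
      le1 (φ w) (φ v) * KK b τ lam r I v w
    rcases le_total (φ v) (φ w) with h | h
    · rw [le1_one h, one_mul]; exact le_self_add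
    · rw [le1_one h, one_mul]; exact le_add_self
  have h2 : ∫⁻ v in G, ∫⁻ w in G, le1 (φ w) (φ v) * KK b τ lam r I v w =
      ∫⁻ v in G, ∫⁻ w in G, le1 (φ v) (φ w) * KK b τ lam r I v w := by
    rw [lintegral_lintegral_swap hLm'.aemeasurable]
    refine lintegral_congr fun w => lintegral_congr fun v => ?_
    rw [KK_symm]
  have h3 : ∫⁻ v in G, ∫⁻ w in G, le1 (φ v) (φ w) * KK b τ lam r I v w ≤
      ENNReal.ofReal (C * (2 * r) ^ d * lam⁻¹ ^ (d - 1) * ell (2 * r)) * volume G := by
    calc ∫⁻ v in G, ∫⁻ w in G, le1 (φ v) (φ w) * KK b τ lam r I v w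
        ≤ ∫⁻ _v in G, ENNReal.ofReal (C * (2 * r) ^ d * lam⁻¹ ^ (d - 1) * ell (2 * r)) := by
          refine setLIntegral_mono' hG fun v hv => ?_
          refine le_trans ?_ (hrow (2 * r) lam c (by positivity) hl hrl v (hGD hv))
          refine (lintegral_mono_set hGD).trans (lintegral_mono fun w => ?_)
          show le1 (φ v) (φ w) * KK b τ lam r I v w ≤ le1 (φ v) (φ w) *
            ∫⁻ s in Icc c (c + 4), oo lam (s - τ w) * ic (2 * r) ((b w + s • w) - (b v + s • v))
          gcongr
          unfold KK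
          apply lintegral_mono
          intro s
          show oo lam (s - τ v) * oo lam (s - τ w) *
            ic (2 * r) ((b v + s • v) - (b w + s • w)) ≤
            oo lam (s - τ w) * ic (2 * r) ((b w + s • w) - (b v + s • v))
          have e : ic (2 * r) ((b v + s • v) - (b w + s • w)) =
              ic (2 * r) ((b w + s • w) - (b v + s • v)) := by
            rw [← ic_neg]
            congr 1
            abel
          rw [e]
          calc _ ≤ 1 * oo lam (s - τ w) * ic (2 * r) ((b w + s • w) - (b v + s • v)) := by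
                gcongr
                exact chi_le _ _ _
            _ = _ := by rw [one_mul]
      _ = _ := by rw [lintegral_const, Measure.restrict_apply_univ]
  calc _ ≤ _ := h1
    _ ≤ _ := by
        rw [h2, two_mul]
        exact add_le_add h3 h3

/-- **The estimate for sets of directions.** -/
theorem restr {D : Set (E d)} {φ : E d → ℝ} {b : E d → E d} {τ : E d → ℝ} {C : ℝ}
    (hrow : RowBd D φ b τ C) (hφ : Measurable φ) (hb : Measurable b) (hτ : Measurable τ)
    {r lam : ℝ} (hr : 0 < r) (hl : 0 < lam) (hrl : 2 * r ≤ 8 * lam) {G : Set (E d)}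
    (hG : MeasurableSet G) (hGD : G ⊆ D) (c : ℝ) {F : E d × ℝ → ℝ≥0∞} (hF : Measurable F) :
    (∫⁻ v in G, ∫⁻ t in Icc c (c + 4), oo lam (t - τ v) * moll r F (b v + t • v, t)) ^ 2 ≤
      ENNReal.ofReal (2 ^ (d + 1) * C / omg d * lam⁻¹ ^ (d - 1) * ell (2 * r)) * volume G *
        ∫⁻ t in Icc c (c + 4), ∫⁻ y, F (y, t) ^ 2 := by
  set I := Icc c (c + 4) with hI
  set V := volume (closedBall (0 : E d) r) with hV
  have hV0 : V ≠ 0 := (vol_pos hr).ne'
  have hVt : V ≠ ∞ := (vol_lt_top).ne
  have hω := omg_pos d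
  have hell := one_le_ell (by positivity : 0 < 2 * r)
  set ν : Measure (ℝ × E d) := (volume.restrict I).prod volume with hν
  have hNm := measurable_NG hb hτ lam r G
  have hFm : Measurable (fun q : ℝ × E d => F (q.2, q.1)) :=
    hF.comp (measurable_snd.prodMk measurable_fst)
  have e1 : ∫⁻ t in I, ∫⁻ y, F (y, t) * NG b τ lam r G t y =
      ∫⁻ q, F (q.2, q.1) * NG b τ lam r G q.1 q.2 ∂ν :=
    (lintegral_prod (fun q : ℝ × E d => F (q.2, q.1) * NG b τ lam r G q.1 q.2)
      (hFm.mul hNm).aemeasurable).symm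
  have e2 : ∫⁻ t in I, ∫⁻ y, F (y, t) ^ 2 = ∫⁻ q, F (q.2, q.1) ^ 2 ∂ν :=
    (lintegral_prod (fun q : ℝ × E d => F (q.2, q.1) ^ 2) (hFm.pow_const 2).aemeasurable).symm
  have e3 : ∫⁻ t in I, ∫⁻ y, NG b τ lam r G t y ^ 2 = ∫⁻ q, NG b τ lam r G q.1 q.2 ^ 2 ∂ν :=
    (lintegral_prod (fun q : ℝ × E d => NG b τ lam r G q.1 q.2 ^ 2)
      (hNm.pow_const 2).aemeasurable).symm
  have h1 := Pool.Agent.H805R3.Kk.Gen.cauchy ν hFm.aemeasurable hNm.aemeasurable
  rw [← e1, ← e2, ← e3] at h1
  have h2 := (energyG hb hτ lam r G I).trans (mul_le_mul_right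
    (pairsG hrow hφ hb hτ hr hl hrl hG hGD c) _)
  rw [← hV] at h2
  rw [dual hb hτ lam hr G I hF, mul_pow, ← hV]
  calc V⁻¹ ^ 2 * (∫⁻ t in I, ∫⁻ y, F (y, t) * NG b τ lam r G t y) ^ 2
      ≤ V⁻¹ ^ 2 * ((∫⁻ t in I, ∫⁻ y, F (y, t) ^ 2) * (V *
        (2 * (ENNReal.ofReal (C * (2 * r) ^ d * lam⁻¹ ^ (d - 1) * ell (2 * r)) * volume G)))) := by
        gcongr
        exact h1.trans (by gcongr)
    _ = (V⁻¹ * V) * (2 * V⁻¹ * ENNReal.ofReal (C * (2 * r) ^ d * lam⁻¹ ^ (d - 1) * ell (2 * r))) *
        volume G * ∫⁻ t in I, ∫⁻ y, F (y, t) ^ 2 := by ring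
    _ = _ := by
        rw [ENNReal.inv_mul_cancel hV0 hVt, one_mul]
        congr 2
        have e4 : (2 : ℝ≥0∞) = ENNReal.ofReal 2 := by simp
        rw [hV, omg_scale d hr, ← ENNReal.ofReal_inv_of_pos (by positivity), e4,
          ← ENNReal.ofReal_mul (by positivity), ← ENNReal.ofReal_mul (by positivity)]
        congr 1
        rw [mul_pow, pow_succ]
        field_simp

end Pool.Agent.W2helper94.CV
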