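import Pool.Agent.W2helper94.CV.E
import Pool.Agent.W2helper94.KC.O

set_option autoImplicit false

/-!
From the estimate for sets to the estimate for functions.
-/

open MeasureTheory Set Metric
open scoped ENNReal NNReal

namespace Pool.Agent.W2helper94.CV

open Pool.Agent.W2helper94.KC
open Pool.Agent.H803R2.Kak
open Pool.Agent.H805R3.Kk.Gen (rad rad_pos)

variable {d : ℕ}

/-- From a weak type bound to a strong one, with a logarithmic loss. -/
theorem strong {α : Type} [MeasurableSpace α] (μ : Measure α) {h : α → ℝ≥0∞} (hm : Measurable h)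
    {p t0 : ℝ} (hp : 0 < p) (ht0 : 0 < t0) {W : ℝ≥0∞} (J : ℕ)
    (hJ : ∀ a, h a ≤ ENNReal.ofReal (2 ^ J * t0))
    (hW : ∀ t : ℝ, 0 < t → ENNReal.ofReal (t ^ p) * μ {a | ENNReal.ofReal t < h a} ≤ W) :
    ∫⁻ a, h a ^ p ∂μ ≤ ENNReal.ofReal (t0 ^ p) * μ univ + J * (ENNReal.ofReal (2 ^ p) * W) := by
  have hS : ∀ t : ℝ, MeasurableSet {a | ENNReal.ofReal t < h a} := fun t =>
    measurableSet_lt measurable_const hm
  have key : ∀ (J : ℕ) (a : α), h a ≤ ENNReal.ofReal (2 ^ J * t0) →
      h a ^ p ≤ ENNReal.ofReal (t0 ^ p) + ∑ j ∈ Finset.range J,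
        {a | ENNReal.ofReal (2 ^ j * t0) < h a}.indicator
          (fun _ => ENNReal.ofReal ((2 ^ (j + 1) * t0) ^ p)) a := by
    intro J
    induction J with
    | zero =>
      intro a ha
      rw [pow_zero, one_mul] at ha
      rw [Finset.range_zero, Finset.sum_empty, add_zero, ← ENNReal.ofReal_rpow_of_pos ht0]
      exact ENNReal.rpow_le_rpow ha hp.le
    | succ J ih =>
      intro a ha
      rw [Finset.sum_range_succ, ← add_assoc]
      by_cases h1 : h a ≤ ENNReal.ofReal (2 ^ J * t0)
      · exact (ih a h1).trans le_self_add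
      · have h2 : a ∈ {a | ENNReal.ofReal (2 ^ J * t0) < h a} := not_le.1 h1
        rw [indicator_of_mem h2]
        refine le_trans ?_ le_add_self
        rw [← ENNReal.ofReal_rpow_of_pos (by positivity)]
        exact ENNReal.rpow_le_rpow ha hp.le
  calc ∫⁻ a, h a ^ p ∂μ ≤ ∫⁻ a, (ENNReal.ofReal (t0 ^ p) + ∑ j ∈ Finset.range J,
        {a | ENNReal.ofReal (2 ^ j * t0) < h a}.indicator
          (fun _ => ENNReal.ofReal ((2 ^ (j + 1) * t0) ^ p)) a) ∂μ :=
        lintegral_mono fun a => key J a (hJ a)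
    _ = ENNReal.ofReal (t0 ^ p) * μ univ + ∑ j ∈ Finset.range J,
        ENNReal.ofReal ((2 ^ (j + 1) * t0) ^ p) * μ {a | ENNReal.ofReal (2 ^ j * t0) < h a} := by
        rw [lintegral_add_left measurable_const, lintegral_const, lintegral_finsetSum]
        · congr 1
          refine Finset.sum_congr rfl fun j _ => ?_
          rw [lintegral_indicator_const (hS _)]
        · intro j _
          exact measurable_const.indicator (hS _)
    _ ≤ ENNReal.ofReal (t0 ^ p) * μ univ + ∑ _j ∈ Finset.range J, ENNReal.ofReal (2 ^ p) * W := by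
        refine add_le_add le_rfl (Finset.sum_le_sum fun j _ => ?_)
        have e : (2 ^ (j + 1) * t0) ^ p = 2 ^ p * (2 ^ j * t0) ^ p := by
          rw [← Real.mul_rpow (by norm_num) (by positivity)]
          congr 1
          ring
        rw [e, ENNReal.ofReal_mul (by positivity), mul_assoc]
        gcongr
        exact hW _ (by positivity)
    _ = _ := by
        rw [Finset.sum_const, Finset.card_range, nsmul_eq_mul]

/-- The shell of relative heights. -/
def shA (i : ℕ) : Set ℝ := {a | (1/2:ℝ) ^ i ≤ |a| ∧ (i = 0 ∨ |a| ≤ 2 * (1/2:ℝ) ^ i)}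

theorem measurableSet_shA (i : ℕ) : MeasurableSet (shA i) := by
  unfold shA
  apply (measurableSet_le measurable_const measurable_id.abs).inter
  exact (MeasurableSet.const _).union (measurableSet_le measurable_id.abs measurable_const)

theorem sI_shA_le (i : ℕ) (a : ℝ) : sI (shA i) a ≤ oo ((1/2:ℝ) ^ i) a := by
  by_cases h : a ∈ shA i
  · rw [oo_one h.1]
    exact sI_le _ _
  · have : sI (shA i) a = 0 := indicator_of_notMem h _
    rw [this]
    exact zero_le

/-- The part of the line integrals. -/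
noncomputable def TS (b : E d → E d) (τ : E d → ℝ) (c r : ℝ) (A : Set ℝ) (F : E d × ℝ → ℝ≥0∞)
    (v : E d) : ℝ≥0∞ := ∫⁻ t in Icc c (c + 4), sI A (t - τ v) * moll r F (b v + t • v, t)

theorem meas_mb {b : E d → E d} (hb : Measurable b) {r : ℝ} {F : E d × ℝ → ℝ≥0∞}
    (hF : Measurable F) : Measurable (fun q : E d × ℝ => moll r F (b q.1 + q.2 • q.1, q.2)) :=
  (measurable_moll hF).comp
    (((hb.comp measurable_fst).add (measurable_snd.smul measurable_fst)).prodMk measurable_snd)

theorem measurable_TS {b : E d → E d} (hb : Measurable b) {τ : E d → ℝ} (hτ : Measurable τ)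
    (c r : ℝ) {A : Set ℝ} (hA : MeasurableSet A) {F : E d × ℝ → ℝ≥0∞} (hF : Measurable F) :
    Measurable (TS b τ c r A F) := by
  have h : Measurable (fun q : E d × ℝ => sI A (q.2 - τ q.1) *
      moll r F (b q.1 + q.2 • q.1, q.2)) :=
    ((measurable_sI hA).comp (measurable_snd.sub (hτ.comp measurable_fst))).mul (meas_mb hb hF)
  exact h.lintegral_prod_right'

theorem moll_le_const {r : ℝ} (hr : 0 < r) {F : E d × ℝ → ℝ≥0∞} {M : ℝ≥0∞} (h : ∀ q, F q ≤ M)
    (q : E d × ℝ) : moll r F q ≤ M := by
  unfold moll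
  calc _ ≤ (volume (closedBall (0:E d) r))⁻¹ * ∫⁻ _w in closedBall (0:E d) r, M := by
        gcongr
        exact h _
    _ = M * (volume (closedBall (0:E d) r) * (volume (closedBall (0:E d) r))⁻¹) := by
        rw [setLIntegral_const]
        ring
    _ = M := by
        rw [ENNReal.mul_inv_cancel (vol_pos hr).ne' (vol_lt_top).ne, mul_one]

theorem shell_len (τ : ℝ) (c : ℝ) (i : ℕ) :
    ∫⁻ t in Icc c (c + 4), sI (shA i) (t - τ) ≤ ENNReal.ofReal (8 * (1/2:ℝ) ^ i) := by
  rcases Nat.eq_zero_or_pos i with h | h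
  · calc ∫⁻ t in Icc c (c + 4), sI (shA i) (t - τ) ≤ ∫⁻ _t in Icc c (c + 4), 1 :=
          lintegral_mono fun t => sI_le _ _
      _ = ENNReal.ofReal 4 := by
          rw [lintegral_one, Measure.restrict_apply_univ, Real.volume_Icc]
          congr 1
          ring
      _ ≤ _ := by
          apply ENNReal.ofReal_le_ofReal
          rw [h]; norm_num
  · calc ∫⁻ t in Icc c (c + 4), sI (shA i) (t - τ) ≤ ∫⁻ t, sI (shA i) (t - τ) :=
          setLIntegral_le_lintegral _ _
      _ = volume (shA i) := lint_sI (measurableSet_shA i) τ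
      _ ≤ volume (Icc (-(2 * (1/2:ℝ) ^ i)) (2 * (1/2:ℝ) ^ i)) := by
          apply measure_mono
          rintro a ⟨-, h1 | h1⟩
          · omega
          · exact abs_le.1 h1
      _ ≤ _ := by
          rw [Real.volume_Icc]
          apply ENNReal.ofReal_le_ofReal
          have : (0:ℝ) < (1/2:ℝ) ^ i := by positivity
          linarith

theorem TS_const {b : E d → E d} {τ : E d → ℝ} {c r : ℝ} (hr : 0 < r) (i : ℕ)
    {F : E d × ℝ → ℝ≥0∞} {M : ℝ≥0∞} (hMt : M ≠ ∞) (h : ∀ q, F q ≤ M) (v : E d) :
    TS b τ c r (shA i) F v ≤ M * ENNReal.ofReal (8 * (1/2:ℝ) ^ i) := by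
  unfold TS
  calc _ ≤ ∫⁻ t in Icc c (c + 4), M * sI (shA i) (t - τ v) := by
        apply lintegral_mono
        intro t
        show sI (shA i) (t - τ v) * moll r F (b v + t • v, t) ≤ M * sI (shA i) (t - τ v)
        rw [mul_comm]
        gcongr
        exact moll_le_const hr h _
    _ = M * ∫⁻ t in Icc c (c + 4), sI (shA i) (t - τ v) := lintegral_const_mul' _ _ hMt
    _ ≤ _ := by
        gcongr
        exact shell_len _ _ _

theorem moll_add {r : ℝ} {F G : E d × ℝ → ℝ≥0∞} (hF : Measurable F) (q : E d × ℝ) :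
    moll r (fun z => F z + G z) q = moll r F q + moll r G q := by
  unfold moll
  rw [← mul_add]
  congr 1
  apply lintegral_add_left
  exact hF.comp ((measurable_const.add measurable_id).prodMk measurable_const)

theorem TS_add {b : E d → E d} (hb : Measurable b) {τ : E d → ℝ} {c r : ℝ} {A : Set ℝ}
    (hA : MeasurableSet A) {F G : E d × ℝ → ℝ≥0∞} (hF : Measurable F) (v : E d) :
    TS b τ c r A (fun z => F z + G z) v = TS b τ c r A F v + TS b τ c r A G v := by
  unfold TS
  rw [← lintegral_add_left]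
  · refine lintegral_congr fun t => ?_
    rw [moll_add hF, mul_add]
  · have h := (meas_mb hb (r := r) hF).comp (measurable_prodMk_left (x := v))
    simp only [Function.comp_def] at h
    exact (meas_sI_sub hA (τ v)).mul h

end Pool.Agent.W2helper94.CV
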