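import Pool.Agent.W2helper94.CV.G
import Pool.Agent.W2helper94.KC.Q

set_option autoImplicit false

/-!
The estimate for one window of heights.
-/

open MeasureTheory Set Metric
open scoped ENNReal NNReal

namespace Pool.Agent.W2helper94.CV

open Pool.Agent.W2helper94.KC
open Pool.Agent.H803R2.Kak
open Pool.Agent.H805R3.Kk.Gen (rad rad_pos)

variable {d : ℕ}

theorem one_le_loss {p δ : ℝ} (hδ : 0 < δ) (hδ1 : δ ≤ 1) : 1 ≤ loss d p δ := by
  unfold loss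
  exact Real.one_le_rpow_of_pos_of_le_one_of_nonpos hδ hδ1 (by
    have : 0 ≤ max 0 ((d:ℝ) + 1 - p) := le_max_left _ _
    linarith)

/-- The constant for one shell. -/
theorem shell_const (hd : 1 ≤ d) {C : ℝ} (hC : 0 ≤ C) (J0 : ℕ) {p : ℝ} (hp : 2 ≤ p) :
    ∃ K1 : ℝ, 0 < K1 ∧ ∀ (κ i : ℕ) (δ : ℝ), 0 < δ → δ < 1 → δ / 2 ≤ (1/2:ℝ) ^ i →
      omg d + ((J0 : ℝ) + κ * d) * (2 ^ p * (4 * AA d C κ i * (16 * (1/2:ℝ) ^ i) ^ (p - 2))) ≤
      K1 * ((κ:ℝ) + 1) ^ 2 * loss d p δ := by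
  have hω := omg_pos d
  refine ⟨omg d + ((J0 : ℝ) + d) * (2 ^ p * (4 * (2 ^ (d + 1) * C / omg d) * 2 *
    (16 ^ (p - 2) * 2 ^ ((d:ℝ) + 1)))), by positivity, ?_⟩
  intro κ i δ hδ hδ1 hi
  set lam : ℝ := (1/2:ℝ) ^ i with hlam
  have hl0 : 0 < lam := by positivity
  have hl1 : lam ≤ 1 := pow_le_one₀ (by norm_num) (by norm_num)
  have hκ0 : (0:ℝ) ≤ κ := Nat.cast_nonneg κ
  have hd0 : (0:ℝ) ≤ d := Nat.cast_nonneg d
  have hL1 := one_le_loss (d := d) (p := p) hδ hδ1.le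
  have h1 := loss_i (d := d) (by linarith : 0 ≤ p) hδ hi hl1
  have h2 := ell_rad κ
  have h3 : lam⁻¹ ^ (d - 1) * lam ^ (p - 2) = lam ^ (p - ((d:ℝ) + 1)) := by
    rw [inv_pow, ← Real.rpow_natCast, ← Real.rpow_neg hl0.le, ← Real.rpow_add hl0]
    congr 1
    rw [Nat.cast_sub hd]
    push_cast
    ring
  have h4 : AA d C κ i * (16 * lam) ^ (p - 2) ≤ (2 ^ (d + 1) * C / omg d) * (2 * ((κ:ℝ) + 1)) *
      (16 ^ (p - 2) * (2 ^ ((d:ℝ) + 1) * loss d p δ)) := by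
    unfold AA
    rw [Real.mul_rpow (by norm_num) hl0.le]
    calc 2 ^ (d + 1) * C / omg d * lam⁻¹ ^ (d - 1) * ell (2 * rad κ) *
          (16 ^ (p - 2) * lam ^ (p - 2))
        = 2 ^ (d + 1) * C / omg d * ell (2 * rad κ) * (16 ^ (p - 2) *
          (lam⁻¹ ^ (d - 1) * lam ^ (p - 2))) := by ring
      _ ≤ 2 ^ (d + 1) * C / omg d * (2 * ((κ:ℝ) + 1)) * (16 ^ (p - 2) *
          (2 ^ ((d:ℝ) + 1) * loss d p δ)) := by
          rw [h3]
          gcongr
  have h5 : (J0 : ℝ) + κ * d ≤ ((J0 : ℝ) + d) * ((κ:ℝ) + 1) := by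
    have : (0:ℝ) ≤ J0 := Nat.cast_nonneg J0
    nlinarith [mul_nonneg this hκ0, mul_nonneg hκ0 hd0]
  have h6 : (1:ℝ) ≤ ((κ:ℝ) + 1) ^ 2 := one_le_pow₀ (by linarith)
  have h7 := AA_nonneg (d := d) hC κ i
  calc omg d + ((J0 : ℝ) + κ * d) * (2 ^ p * (4 * AA d C κ i * (16 * lam) ^ (p - 2)))
      = omg d * 1 * 1 + ((J0 : ℝ) + κ * d) * (2 ^ p * (4 * (AA d C κ i * (16 * lam) ^ (p - 2)))) := by
        ring
    _ ≤ omg d * ((κ:ℝ) + 1) ^ 2 * loss d p δ + (((J0 : ℝ) + d) * ((κ:ℝ) + 1)) * (2 ^ p * (4 *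
          ((2 ^ (d + 1) * C / omg d) * (2 * ((κ:ℝ) + 1)) *
      (16 ^ (p - 2) * (2 ^ ((d:ℝ) + 1) * loss d p δ))))) := by gcongr
    _ = _ := by ring

/-- The estimate for one window. -/
theorem window (hd : 1 ≤ d) {C : ℝ} (hC : 0 ≤ C) {p : ℝ} (hp : 2 ≤ p) :
    ∃ K : ℝ, 0 < K ∧ ∀ (D : Set (E d)) (φ : E d → ℝ)
    (b : E d → E d) (τ : E d → ℝ), RowBd D φ b τ C → Measurable φ → Measurable b → Measurable τ →
    MeasurableSet D → D ⊆ closedBall 0 1 → ∀ (κ : ℕ) (δ : ℝ), 0 < δ → δ < 1 →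
    2 * δ ≤ rad κ → ∀ (c : ℝ) (F : E d × ℝ → ℝ≥0∞), Measurable F →
    ∫⁻ v in D, (∫⁻ t in Icc c (c + 4), moll (rad κ) F (b v + t • v, t)) ^ p ≤
      ENNReal.ofReal (K * ((κ:ℝ) + 1) ^ (p + 2) * loss d p δ) * ∫⁻ q, F q ^ p := by
  obtain ⟨J0, hshell⟩ := shellS d hC
  obtain ⟨K1, hK1, hconst⟩ := shell_const hd hC J0 hp
  refine ⟨2 ^ (p - 1) * 2 ^ p * (K1 + 1), by positivity, ?_⟩
  intro D φ b τ hrow hφ hb hτ hD hDB κ δ hδ hδ1 hκδ c F hF
  have hp0 : 0 < p := by linarith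
  have hp1 : 0 ≤ p - 1 := by linarith
  have hr := rad_pos κ
  have hκ0 : (0:ℝ) ≤ κ := Nat.cast_nonneg κ
  have hδκ : δ ≤ (1/2:ℝ) ^ κ := by
    have : rad κ = 2 * (1/2:ℝ) ^ κ := rfl
    rw [this] at hκδ
    linarith
  set N : ℝ≥0∞ := ∫⁻ q, F q ^ p with hN
  set ls : ℝ := loss d p δ with hls
  have hls1 : 1 ≤ ls := one_le_loss hδ hδ1.le
  set X : ℕ → E d → ℝ≥0∞ := fun i v => TS b τ c (rad κ) (shA i) F v with hX
  set Z : E d → ℝ≥0∞ := fun v =>
    ∫⁻ t in {t | |t - τ v| < (1/2:ℝ) ^ (κ + 1)}, moll (rad κ) F (b v + t • v, t) with hZ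
  have hXm : ∀ i, Measurable (X i) := fun i => measurable_TS hb hτ c (rad κ) (measurableSet_shA i) hF
  have hGm := meas_mb hb (r := rad κ) hF
  have hXi : ∀ i ∈ Finset.range (κ + 2), ∫⁻ v in D, X i v ^ p ≤
      ENNReal.ofReal (K1 * ((κ:ℝ) + 1) ^ 2 * ls) * N := by
    intro i hi
    have hi' : i < κ + 2 := Finset.mem_range.1 hi
    refine (hshell D φ b τ hrow hφ hb hτ hD hDB κ i hi' p hp c F hF).trans ?_
    gcongr
    apply hconst κ i δ hδ hδ1
    have h1 : (1/2:ℝ) ^ (κ + 1) ≤ (1/2:ℝ) ^ i :=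
      pow_le_pow_of_le_one (by norm_num) (by norm_num) (by omega)
    rw [pow_succ] at h1
    linarith
  have hZi : ∫⁻ v in D, Z v ^ p ≤ ENNReal.ofReal (2 ^ p * ls) * N := by
    have h1 := nearpart (b := b) (τ := τ) (W := fun _ => 1) (fun _ => le_rfl) (κ := κ) hp hF hδ
      (by linarith : δ ≤ rad κ)
    refine le_trans ?_ h1
    refine (lintegral_mono_set hDB).trans (le_of_eq ?_)
    refine lintegral_congr fun v => ?_
    rw [inv_one, one_mul]
  -- pointwise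
  have hcov : ∀ v, ∫⁻ t in Icc c (c + 4), moll (rad κ) F (b v + t • v, t) ≤
      ∑ i ∈ Finset.range (κ + 2), X i v + Z v := by
    intro v
    have hmv : Measurable (fun t : ℝ => moll (rad κ) F (b v + t • v, t)) := by
      have h := hGm.comp (measurable_prodMk_left (x := v))
      simp only [Function.comp_def] at h
      exact h
    have hZv : MeasurableSet {t : ℝ | |t - τ v| < (1/2:ℝ) ^ (κ + 1)} :=
      measurableSet_lt (measurable_id.sub_const _).abs measurable_const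
    have e1 : ∑ i ∈ Finset.range (κ + 2), X i v = ∫⁻ t in Icc c (c + 4),
        ∑ i ∈ Finset.range (κ + 2), sI (shA i) (t - τ v) * moll (rad κ) F (b v + t • v, t) := by
      rw [lintegral_finsetSum]
      · rfl
      · intro i _
        exact (meas_sI_sub (measurableSet_shA i) (τ v)).mul hmv
    have e2 : ∫⁻ t in Icc c (c + 4), ({t : ℝ | |t - τ v| < (1/2:ℝ) ^ (κ + 1)}.indicator
        (fun t => moll (rad κ) F (b v + t • v, t))) t ≤ Z v := by
      rw [hZ]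
      simp only
      rw [← lintegral_indicator hZv]
      exact setLIntegral_le_lintegral _ _
    calc ∫⁻ t in Icc c (c + 4), moll (rad κ) F (b v + t • v, t)
        ≤ ∫⁻ t in Icc c (c + 4), (∑ i ∈ Finset.range (κ + 2),
          sI (shA i) (t - τ v) * moll (rad κ) F (b v + t • v, t) +
          ({t : ℝ | |t - τ v| < (1/2:ℝ) ^ (κ + 1)}.indicator
          (fun t => moll (rad κ) F (b v + t • v, t))) t) := by
          refine setLIntegral_mono' measurableSet_Icc fun t ht => ?_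
          have h0 : t ∈ Icc (-(|c| + 4)) (|c| + 4) := by
            obtain ⟨h1, h2⟩ := ht
            have := neg_abs_le c
            have := le_abs_self c
            constructor <;> linarith
          have h := shell_cover τ (|c| + 4) v κ h0
          rcases h with h | h
          · simp only [mem_iUnion, Finset.mem_range] at h
            obtain ⟨i, hi, h2⟩ := h
            have h3 : t - τ v ∈ shA i := ⟨h2.1.2, h2.2⟩
            refine le_trans ?_ le_self_add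
            refine le_trans (le_of_eq ?_) (Finset.single_le_sum
              (f := fun i => sI (shA i) (t - τ v) * moll (rad κ) F (b v + t • v, t))
              (fun _ _ => zero_le) (Finset.mem_range.2 hi))
            have h4 : sI (shA i) (t - τ v) = 1 := indicator_of_mem h3 _
            rw [h4, one_mul]
          · refine le_trans ?_ le_add_self
            rw [indicator_of_mem h]
      _ = ∑ i ∈ Finset.range (κ + 2), X i v + ∫⁻ t in Icc c (c + 4),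
          ({t : ℝ | |t - τ v| < (1/2:ℝ) ^ (κ + 1)}.indicator
          (fun t => moll (rad κ) F (b v + t • v, t))) t := by
          rw [e1, lintegral_add_right _ (hmv.indicator hZv)]
      _ ≤ _ := by gcongr
  set c2 : ℝ≥0∞ := (2:ℝ≥0∞) ^ (p - 1) with hc2
  set c3 : ℝ≥0∞ := ((κ + 2 : ℕ) : ℝ≥0∞) ^ (p - 1) with hc3
  have hc2t : c2 ≠ ∞ := ENNReal.rpow_ne_top_of_nonneg hp1 (by simp)
  have hc3t : c3 ≠ ∞ := ENNReal.rpow_ne_top_of_nonneg hp1 (by simp)
  have hpt : ∀ v, (∫⁻ t in Icc c (c + 4), moll (rad κ) F (b v + t • v, t)) ^ p ≤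
      c2 * (c3 * ∑ i ∈ Finset.range (κ + 2), X i v ^ p + Z v ^ p) := by
    intro v
    calc _ ≤ (∑ i ∈ Finset.range (κ + 2), X i v + Z v) ^ p :=
          ENNReal.rpow_le_rpow (hcov v) hp0.le
      _ ≤ c2 * ((∑ i ∈ Finset.range (κ + 2), X i v) ^ p + Z v ^ p) :=
          ENNReal.rpow_add_le_mul_rpow_add_rpow _ _ (by linarith)
      _ ≤ _ := by
          gcongr
          have h2 := ENNReal.rpow_sum_le_const_mul_sum_rpow (s := Finset.range (κ + 2))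
            (f := fun i => X i v) (p := p) (by linarith)
          rwa [Finset.card_range] at h2
  have hsum : ∫⁻ v in D, (∫⁻ t in Icc c (c + 4), moll (rad κ) F (b v + t • v, t)) ^ p ≤
      c2 * (c3 * (((κ + 2 : ℕ) : ℝ≥0∞) * (ENNReal.ofReal (K1 * ((κ:ℝ) + 1) ^ 2 * ls) * N)) +
        ENNReal.ofReal (2 ^ p * ls) * N) := by
    calc _ ≤ ∫⁻ v in D, c2 * (c3 * ∑ i ∈ Finset.range (κ + 2), X i v ^ p + Z v ^ p) :=
          lintegral_mono hpt
      _ = c2 * (c3 * ∑ i ∈ Finset.range (κ + 2), (∫⁻ v in D, X i v ^ p) + ∫⁻ v in D, Z v ^ p) := by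
          rw [lintegral_const_mul' _ _ hc2t, lintegral_add_left,
            lintegral_const_mul' _ _ hc3t, lintegral_finsetSum]
          · intro i _
            exact (hXm i).pow_const p
          · refine Measurable.const_mul ?_ _
            exact Finset.measurable_sum _ (fun i _ => (hXm i).pow_const p)
      _ ≤ c2 * (c3 * ∑ _i ∈ Finset.range (κ + 2),
            (ENNReal.ofReal (K1 * ((κ:ℝ) + 1) ^ 2 * ls) * N) +
            ENNReal.ofReal (2 ^ p * ls) * N) := by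
          gcongr with i hi
          exact hXi i hi
      _ = _ := by
          rw [Finset.sum_const, Finset.card_range, nsmul_eq_mul]
  refine hsum.trans ?_
  have hκ2 : ((κ + 2 : ℕ) : ℝ≥0∞) = ENNReal.ofReal ((κ:ℝ) + 2) := by
    rw [← ENNReal.ofReal_natCast]
    push_cast
    rfl
  have e2 : c2 = ENNReal.ofReal (2 ^ (p - 1)) := by
    rw [hc2, ← ENNReal.ofReal_rpow_of_pos (by norm_num)]
    simp
  have e3 : c3 = ENNReal.ofReal (((κ:ℝ) + 2) ^ (p - 1)) := by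
    rw [hc3, hκ2, ENNReal.ofReal_rpow_of_pos (by positivity)]
  have e4 : c2 * (c3 * (((κ + 2 : ℕ) : ℝ≥0∞) * (ENNReal.ofReal (K1 * ((κ:ℝ) + 1) ^ 2 * ls) * N)) +
        ENNReal.ofReal (2 ^ p * ls) * N) =
      ENNReal.ofReal (1 * 2 ^ (p - 1) * (((κ:ℝ) + 2) ^ (p - 1) * (((κ:ℝ) + 2) *
        (K1 * ((κ:ℝ) + 1) ^ 2 * ls)) + 2 ^ p * ls)) * N := by
    rw [ofReal_comb (by positivity) (by positivity) (by positivity) (by positivity)
      (by positivity) (by positivity), e2, e3, hκ2, ENNReal.ofReal_one]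
    ring
  rw [e4]
  refine mul_le_mul' (ENNReal.ofReal_le_ofReal ?_) le_rfl
  have h1 : ((κ:ℝ) + 2) ^ (p - 1) * ((κ:ℝ) + 2) ≤ 2 ^ p * ((κ:ℝ) + 1) ^ p := by
    have h3 : (0:ℝ) < (κ:ℝ) + 2 := by positivity
    calc ((κ:ℝ) + 2) ^ (p - 1) * ((κ:ℝ) + 2) = ((κ:ℝ) + 2) ^ p := by
          nth_rw 2 [← Real.rpow_one ((κ:ℝ) + 2)]
          rw [← Real.rpow_add h3]
          congr 1
          ring
      _ ≤ (2 * ((κ:ℝ) + 1)) ^ p := Real.rpow_le_rpow h3.le (by linarith) hp0.le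
      _ = _ := Real.mul_rpow (by norm_num) (by positivity)
  have h2 : ((κ:ℝ) + 1) ^ p * ((κ:ℝ) + 1) ^ 2 = ((κ:ℝ) + 1) ^ (p + 2) := by
    rw [Real.rpow_add (by positivity), Real.rpow_two]
  have h3 : (1:ℝ) ≤ ((κ:ℝ) + 1) ^ (p + 2) := Real.one_le_rpow (by linarith) (by linarith)
  calc 1 * 2 ^ (p - 1) * (((κ:ℝ) + 2) ^ (p - 1) * (((κ:ℝ) + 2) *
        (K1 * ((κ:ℝ) + 1) ^ 2 * ls)) + 2 ^ p * ls)
      = 2 ^ (p - 1) * ((((κ:ℝ) + 2) ^ (p - 1) * ((κ:ℝ) + 2)) *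
        (K1 * ((κ:ℝ) + 1) ^ 2 * ls) + 2 ^ p * 1 * ls) := by ring
    _ ≤ 2 ^ (p - 1) * ((2 ^ p * ((κ:ℝ) + 1) ^ p) *
        (K1 * ((κ:ℝ) + 1) ^ 2 * ls) + 2 ^ p * ((κ:ℝ) + 1) ^ (p + 2) * ls) := by
        gcongr
    _ = 2 ^ (p - 1) * (2 ^ p * K1 * (((κ:ℝ) + 1) ^ p * ((κ:ℝ) + 1) ^ 2) * ls +
        2 ^ p * ((κ:ℝ) + 1) ^ (p + 2) * ls) := by ring
    _ = _ := by
        rw [h2]
        ring

end Pool.Agent.W2helper94.CV
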