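import Pool.Agent.W2helper94.CV.H

set_option autoImplicit false

/-!
The estimate for the maximal function.
-/

open MeasureTheory Set Metric
open scoped ENNReal NNReal

namespace Pool.Agent.W2helper94.CV

open Pool.Agent.W2helper94.KC
open Pool.Agent.H803R2.Kak Pool.Agent.H803R2.KakFTO
open Pool.Agent.H805R3.Kk.Gen (rad rad_pos moll_compare)

variable {d : ℕ}

/-- The windows. -/
def Wj (j : ℤ) : Set ℝ := Icc (j : ℝ) ((j : ℝ) + 4)

theorem window_count (t : ℝ) (a : ℝ≥0∞) : ∑' j : ℤ, (Wj j).indicator (fun _ => a) t ≤ 5 * a := by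
  classical
  have h0 : ∀ j ∉ Finset.Icc (⌊t⌋ - 4) ⌊t⌋, (Wj j).indicator (fun _ => a) t = 0 := by
    intro j hj
    apply indicator_of_notMem
    rintro ⟨h1, h2⟩
    apply hj
    rw [Finset.mem_Icc]
    constructor
    · have h3 : (⌊t⌋ : ℝ) ≤ (j : ℝ) + 4 := (Int.floor_le t).trans h2
      have h4 : ⌊t⌋ ≤ j + 4 := by exact_mod_cast h3
      omega
    · exact Int.le_floor.2 h1
  rw [tsum_eq_sum h0]
  calc ∑ j ∈ Finset.Icc (⌊t⌋ - 4) ⌊t⌋, (Wj j).indicator (fun _ => a) t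
      ≤ ∑ _j ∈ Finset.Icc (⌊t⌋ - 4) ⌊t⌋, a :=
        Finset.sum_le_sum fun j _ => indicator_le_self' (fun _ _ => zero_le) t
    _ = 5 * a := by
        rw [Finset.sum_const, nsmul_eq_mul]
        congr 1
        rw [Int.card_Icc]
        have : (⌊t⌋ + 1 - (⌊t⌋ - 4)).toNat = 5 := by
          have : ⌊t⌋ + 1 - (⌊t⌋ - 4) = 5 := by ring
          rw [this]; rfl
        rw [this]
        norm_num

/-- The restriction of a function to a window. -/
noncomputable def Fj (F : E d × ℝ → ℝ≥0∞) (j : ℤ) : E d × ℝ → ℝ≥0∞ :=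
  {q : E d × ℝ | q.2 ∈ Wj j}.indicator F

theorem measurableSet_Fj (j : ℤ) : MeasurableSet {q : E d × ℝ | q.2 ∈ Wj j} :=
  measurable_snd measurableSet_Icc

theorem measurable_Fj {F : E d × ℝ → ℝ≥0∞} (hF : Measurable F) (j : ℤ) : Measurable (Fj F j) :=
  hF.indicator (measurableSet_Fj j)

theorem moll_Fj {r : ℝ} {F : E d × ℝ → ℝ≥0∞} {j : ℤ} {t : ℝ} (ht : t ∈ Wj j) (x : E d) :
    moll r (Fj F j) (x, t) = moll r F (x, t) := by
  unfold moll
  congr 1
  refine lintegral_congr fun w => ?_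
  unfold Fj
  rw [indicator_of_mem (show (x + w, t) ∈ {q : E d × ℝ | q.2 ∈ Wj j} from ht)]

theorem sum_Fj {F : E d × ℝ → ℝ≥0∞} (hF : Measurable F) {p : ℝ} (hp : 0 < p) :
    ∑' j : ℤ, ∫⁻ q, Fj F j q ^ p ≤ 5 * ∫⁻ q, F q ^ p := by
  rw [← lintegral_tsum (fun j => ((measurable_Fj hF j).pow_const p).aemeasurable),
    ← lintegral_const_mul _ (hF.pow_const p)]
  apply lintegral_mono
  intro q
  show ∑' j : ℤ, Fj F j q ^ p ≤ 5 * F q ^ p
  refine le_trans (le_of_eq ?_) (window_count q.2 (F q ^ p))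
  congr 1
  funext j
  unfold Fj
  by_cases h : q.2 ∈ Wj j
  · rw [indicator_of_mem (show q ∈ {q : E d × ℝ | q.2 ∈ Wj j} from h), indicator_of_mem h]
  · rw [indicator_of_notMem (show q ∉ {q : E d × ℝ | q.2 ∈ Wj j} from h), indicator_of_notMem h,
      ENNReal.zero_rpow_of_pos hp]

/-- **The estimate for the maximal function, for families with the row bound.** -/
theorem lines (hd : 1 ≤ d) {C : ℝ} (hC : 0 ≤ C) {p : ℝ} (hp : 2 ≤ p) :
    ∃ K : ℝ, 0 < K ∧ ∀ (D : Set (E d)) (φ : E d → ℝ)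
    (b : E d → E d) (τ : E d → ℝ), RowBd D φ b τ C → Measurable φ → Measurable b → Measurable τ →
    MeasurableSet D → D ⊆ closedBall 0 1 → ∀ (δ : ℝ), 0 < δ → δ < 1 →
    ∀ (f : Space d → ℝ), Measurable f →
    ∫⁻ v in D, lineMax δ b f v ^ p ≤
      ENNReal.ofReal (K * (1 + Real.log (1 / δ)) ^ (p + 2) * loss d p δ) * ∫⁻ y, ‖f y‖ₑ ^ p := by
  obtain ⟨K, hK, hwin⟩ := window hd hC hp
  refine ⟨(4 * 16 ^ d) ^ p * (K * 4 ^ (p + 2)) * 5, by positivity, ?_⟩
  intro D φ b τ hrow hφ hb hτ hD hDB δ hδ hδ1 f hf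
  have hp0 : 0 < p := by linarith
  obtain ⟨κ, hk1, hk2⟩ := exists_nat_pow_near_of_lt_one hδ hδ1.le (by norm_num : (0:ℝ) < 1/2)
    (by norm_num)
  have hrd : rad κ = 2 * (1/2:ℝ) ^ κ := rfl
  have hr1 : 2 * δ ≤ rad κ := by rw [hrd]; linarith
  have hr2 : rad κ ≤ 4 * δ := by
    rw [hrd]
    rw [pow_succ] at hk1
    linarith
  have hmp := WithLp.volume_preserving_toLp (Vec d) ℝ
  set F : E d × ℝ → ℝ≥0∞ := fun q => ‖f (WithLp.toLp 2 q)‖ₑ with hFdef
  have hFm : Measurable F := (hf.comp hmp.measurable).enorm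
  have hIF : ∫⁻ q, F q ^ p = ∫⁻ y, ‖f y‖ₑ ^ p :=
    hmp.lintegral_comp (f := fun y : Space d => ‖f y‖ₑ ^ p) (hf.enorm.pow_const _)
  rw [← hIF]
  set X : ℤ → E d → ℝ≥0∞ := fun j v =>
    ∫⁻ t in Wj j, moll (rad κ) (Fj F j) (b v + t • v, t) with hX
  have hXm : ∀ j, Measurable (X j) := fun j =>
    (meas_mb hb (r := rad κ) (measurable_Fj hFm j)).lintegral_prod_right'
  have hc : (4 * 16 ^ d : ℝ≥0∞) ≠ ∞ := ENNReal.mul_ne_top (by simp) (ENNReal.pow_ne_top (by simp))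
  -- pointwise
  have hpt : ∀ v ∈ D, lineMax δ b f v ^ p ≤ (4 * 16 ^ d : ℝ≥0∞) ^ p * ∑' j : ℤ, X j v ^ p := by
    intro v hv
    have hv1 : ‖v‖ ≤ 1 := by simpa using hDB hv
    have h1 : lineMax δ b f v ≤ (4 * 16 ^ d) * (∑' j : ℤ, X j v ^ p) ^ (1 / p) := by
      calc lineMax δ b f v ≤ (4 * 8 ^ d) * ⨆ h : ℝ, ∫⁻ t in Icc h (h + 3),
            moll (2*δ) F (b v + t • v, t) := lineMax_le hδ hδ1 b hv1 hf
        _ ≤ (4 * 8 ^ d) * (2 ^ d * (∑' j : ℤ, X j v ^ p) ^ (1 / p)) := by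
            gcongr
            apply iSup_le
            intro h
            calc ∫⁻ t in Icc h (h + 3), moll (2*δ) F (b v + t • v, t)
                ≤ ∫⁻ t in Icc h (h + 3), 2 ^ d * moll (rad κ) F (b v + t • v, t) :=
                  lintegral_mono (fun t => moll_compare hδ hr1 hr2 F _ t)
              _ = 2 ^ d * ∫⁻ t in Icc h (h + 3), moll (rad κ) F (b v + t • v, t) :=
                  lintegral_const_mul' _ _ (ENNReal.pow_ne_top (by simp))
              _ ≤ 2 ^ d * (∑' j : ℤ, X j v ^ p) ^ (1 / p) := by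
                  gcongr
                  have h2 : ∫⁻ t in Icc h (h + 3), moll (rad κ) F (b v + t • v, t) ≤ X ⌊h⌋ v := by
                    have hsub : Icc h (h + 3) ⊆ Wj ⌊h⌋ := by
                      intro t ht
                      have h3 := Int.floor_le h
                      have h4 := Int.lt_floor_add_one h
                      exact ⟨by linarith [ht.1], by linarith [ht.2]⟩
                    refine (lintegral_mono_set hsub).trans (le_of_eq ?_)
                    rw [hX]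
                    simp only
                    apply setLIntegral_congr_fun measurableSet_Icc
                    intro t ht
                    exact (moll_Fj ht _).symm
                  refine h2.trans ?_
                  have h5 : X ⌊h⌋ v ^ p ≤ ∑' j : ℤ, X j v ^ p := ENNReal.le_tsum ⌊h⌋
                  calc X ⌊h⌋ v = (X ⌊h⌋ v ^ p) ^ (1 / p) := by
                        rw [← ENNReal.rpow_mul, mul_one_div_cancel hp0.ne', ENNReal.rpow_one]
                    _ ≤ _ := ENNReal.rpow_le_rpow h5 (by positivity)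
        _ = _ := by
            have : (16:ℝ≥0∞) ^ d = 8 ^ d * 2 ^ d := by rw [← mul_pow]; norm_num
            rw [this]
            ring
    calc lineMax δ b f v ^ p ≤ ((4 * 16 ^ d) * (∑' j : ℤ, X j v ^ p) ^ (1 / p)) ^ p :=
          ENNReal.rpow_le_rpow h1 hp0.le
      _ = _ := by
          rw [ENNReal.mul_rpow_of_nonneg _ _ hp0.le, ← ENNReal.rpow_mul,
            one_div_mul_cancel hp0.ne', ENNReal.rpow_one]
  have hsum : ∫⁻ v in D, lineMax δ b f v ^ p ≤ (4 * 16 ^ d : ℝ≥0∞) ^ p *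
      (ENNReal.ofReal (K * ((κ:ℝ) + 1) ^ (p + 2) * loss d p δ) * (5 * ∫⁻ q, F q ^ p)) := by
    calc ∫⁻ v in D, lineMax δ b f v ^ p ≤ ∫⁻ v in D, (4 * 16 ^ d : ℝ≥0∞) ^ p * ∑' j : ℤ, X j v ^ p :=
          setLIntegral_mono' hD hpt
      _ = (4 * 16 ^ d : ℝ≥0∞) ^ p * ∑' j : ℤ, ∫⁻ v in D, X j v ^ p := by
          rw [lintegral_const_mul' _ _ (ENNReal.rpow_ne_top_of_nonneg hp0.le hc),
            lintegral_tsum (fun j => ((hXm j).pow_const p).aemeasurable)]
      _ ≤ (4 * 16 ^ d : ℝ≥0∞) ^ p * ∑' j : ℤ, (ENNReal.ofReal (K * ((κ:ℝ) + 1) ^ (p + 2) *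
          loss d p δ) * ∫⁻ q, Fj F j q ^ p) := by
          gcongr with j
          exact hwin D φ b τ hrow hφ hb hτ hD hDB κ δ hδ hδ1 hr1 (j : ℝ) (Fj F j)
            (measurable_Fj hFm j)
      _ ≤ _ := by
          rw [ENNReal.tsum_mul_left]
          gcongr
          exact sum_Fj hFm hp0
  refine hsum.trans ?_
  -- constants
  have hlog0 : 0 ≤ Real.log (1 / δ) := Real.log_nonneg (by rw [le_div_iff₀ hδ]; linarith)
  set Lam : ℝ := 1 + Real.log (1 / δ) with hLam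
  have hLam1 : 1 ≤ Lam := by linarith
  have hκ0 : (0:ℝ) ≤ κ := Nat.cast_nonneg κ
  have hklog : (κ:ℝ) + 1 ≤ 4 * Lam := by
    have h1 : (2:ℝ)^κ ≤ 1/δ := by
      rw [le_div_iff₀ hδ]
      have : δ ≤ ((2:ℝ)^κ)⁻¹ := by
        rw [← inv_pow]; simpa [one_div] using hk2
      calc (2:ℝ)^κ * δ ≤ 2^κ * ((2:ℝ)^κ)⁻¹ := by gcongr
        _ = 1 := mul_inv_cancel₀ (by positivity)
    have h2 := Real.log_le_log (by positivity) h1
    rw [Real.log_pow] at h2
    have h3 := Real.log_two_gt_d9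
    have h4 : (κ:ℝ) * (1/2) ≤ κ * Real.log 2 := by
      apply mul_le_mul_of_nonneg_left _ (Nat.cast_nonneg κ)
      linarith
    rw [hLam]
    linarith
  have hloss := loss_pos (d := d) (p := p) hδ
  have e1 : (4 * 16 ^ d : ℝ≥0∞) ^ p = ENNReal.ofReal ((4 * 16 ^ d) ^ p) := by
    rw [← ENNReal.ofReal_rpow_of_pos (by positivity), ENNReal.ofReal_mul (by norm_num),
      ENNReal.ofReal_pow (by norm_num)]
    simp
  have e5 : (5 : ℝ≥0∞) = ENNReal.ofReal 5 := by simp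
  rw [e1, e5, ← mul_assoc, ← mul_assoc, ← ENNReal.ofReal_mul (by positivity),
    ← ENNReal.ofReal_mul (by positivity)]
  refine mul_le_mul' (ENNReal.ofReal_le_ofReal ?_) le_rfl
  have h6 : ((κ:ℝ) + 1) ^ (p + 2) ≤ 4 ^ (p + 2) * Lam ^ (p + 2) := by
    rw [← Real.mul_rpow (by norm_num) (by positivity)]
    exact Real.rpow_le_rpow (by positivity) hklog (by positivity)
  calc (4 * 16 ^ d) ^ p * (K * ((κ:ℝ) + 1) ^ (p + 2) * loss d p δ) * 5
      ≤ (4 * 16 ^ d) ^ p * (K * (4 ^ (p + 2) * Lam ^ (p + 2)) * loss d p δ) * 5 := by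
        gcongr
    _ = _ := by ring

end Pool.Agent.W2helper94.CV
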